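import Pool.Agent.P.MP_2862dc_ag.R.VAL
import Pool.Agent.P.MP_2862dc_ag.R.EXR
import Pool.Agent.P.MP_2862dc_ag.R.EXL
import Pool.Agent.P.MP_2862dc_ag.R.LB
import Pool.Agent.P.MP_2862dc_ag.R.KOS
import Pool.Agent.P.MP_2862dc_ag.R.LS
import Pool.Agent.P.MP_2862dc_ag.R.NULL
import Pool.Agent.P.MP_2862dc_ag.R.LEAD
import Pool.Agent.P.MP_2862dc_ag.R.IRR
import Pool.Agent.P.MP_2862dc_ag.R.CONN
import Pool.Agent.P.MP_2862dc_ag.R.GM
import Pool.Agent.P.MP_2862dc_ag.R.INJA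
import Pool.Agent.P.MP_2862dc_ag.R.CONST
import Pool.Agent.P.MP_2862dc_ag.R.INJB
import Pool.Agent.P.MP_2862dc_ag.R.INJ
import Pool.Agent.P.MP_2862dc_ag.R.FE
import Pool.Agent.P.MP_2862dc_ag.R.LC
import Pool.Agent.P.MP_2862dc_ag.R.FORM
import Pool.Agent.P.MP_2862dc_ag.R.PF
import Pool.Agent.P.MP_2862dc_ag.R.DEC
import Pool.Agent.P.MP_2862dc_ag.R.RED
import Pool.Agent.P.MP_2862dc_ag.R.HONE
import Pool.Agent.P.MP_2862dc_ag.R.HG
import Pool.Agent.P.MP_2862dc_ag.R.TZ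
import Pool.Agent.P.MP_2862dc_ag.R.FA
import Pool.Agent.P.MP_2862dc_ag.R.FB
import Pool.Agent.P.MP_2862dc_ag.R.DIV
import Pool.Agent.P.MP_2862dc_ag.R.LDV
import Pool.Agent.P.MP_2862dc_ag.R.FC
import Pool.Agent.P.MP_2862dc_ag.R.FT
import Pool.Agent.P.MP_2862dc_ag.R.STAB
import Pool.Agent.P.MP_2862dc_ag.R.DLOG
import Pool.Agent.P.MP_2862dc_ag.R.LOG
import Pool.Agent.P.MP_2862dc_ag.R.TLSUB
import Pool.Agent.P.MP_2862dc_ag.R.FINT
import Pool.Agent.P.MP_2862dc_ag.R.LIN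
import Pool.Agent.P.MP_2862dc_ag.R.KERN
import Pool.Agent.P.MP_2862dc_ag.R.SAT
import Pool.Agent.P.MP_2862dc_ag.R.STEP
import Pool.Agent.P.MP_2862dc_ag.R.DIMTL
import Pool.Agent.P.MP_2862dc_ag.R.EPS
import Pool.Agent.P.MP_2862dc_ag.R.SURJ
import Pool.Agent.P.MP_2862dc_ag.R.LIS
import Pool.Agent.P.MP_2862dc_ag.R.SEMI
import Pool.Agent.P.MP_2862dc_ag.R.RKLE
import Pool.Agent.P.MP_2862dc_ag.R.RKGE
import Pool.Agent.P.MP_2862dc_ag.R.GEN
import Pool.Agent.P.MP_2862dc_ag.R.DPI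
import Pool.Agent.P.MP_2862dc_ag.R.KER
import Pool.Agent.P.MP_2862dc_ag.R.JACL
import Pool.Agent.P.MP_2862dc_ag.R.SYLL
import Pool.Agent.P.MP_2862dc_ag.R.KEY
import Pool.Agent.P.MP_2862dc_ag.R.SYL
import Pool.Agent.P.MP_2862dc_ag.R.FIN
import Pool.Agent.P.MP_2862dc_ag.R.JIND
import Pool.Agent.P.MP_2862dc_ag.R.ALG
import Pool.Agent.P.MP_2862dc_ag.R.CHAIN
import Pool.Agent.P.MP_2862dc_ag.R.GS
import Pool.Agent.P.MP_2862dc_ag.R.DEP
import Pool.Agent.P.MP_2862dc_ag.R.THIN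
import Pool.Agent.P.MP_2862dc_ag.R.PIECE
import Pool.Agent.P.MP_2862dc_ag.R.CASES
import Pool.Agent.P.MP_2862dc_ag.R.BAD
import Pool.Agent.P.MP_2862dc_ag.R.LIFT
import Pool.Agent.P.MP_2862dc_ag.R.MORSE
import Pool.Agent.P.MP_2862dc_ag.R.KILL
import Pool.Agent.P.MP_2862dc_ag.R.DET
import Pool.Agent.P.MP_2862dc_ag.R.JET
import Pool.Agent.P.MP_2862dc_ag.R.DERO
import Pool.Agent.P.MP_2862dc_ag.R.POLYO
import Pool.Agent.P.MP_2862dc_ag.R.CJET
import Pool.Agent.P.MP_2862dc_ag.R.TAN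
import Pool.Agent.P.MP_2862dc_ag.R.LOC
import Pool.Agent.P.MP_2862dc_ag.R.PUSH
import Pool.Agent.P.MP_2862dc_ag.R.SP
import Pool.Agent.P.MP_2862dc_ag.R.XI
import Pool.Agent.P.MP_2862dc_ag.R.FI
import Pool.Agent.P.MP_2862dc_ag.R.AVG
import Pool.Agent.P.MP_2862dc_ag.R.TSTAR
import Pool.Agent.P.MP_2862dc_ag.R.EXACT
import Pool.Agent.P.MP_2862dc_ag.R.TLEX
import Pool.Agent.P.MP_2862dc_ag.R.DENS
import Pool.Agent.P.MP_2862dc_ag.R.MAIN

/-! All intermediate statements, proved. -/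

namespace CenLoc

theorem all_VAL : StVAL := pf_VAL
theorem all_EXR : StEXR := pf_EXR
theorem all_EXL : StEXL := pf_EXL all_VAL all_EXR
theorem all_LB : StLB := pf_LB
theorem all_KOS : StKOS := pf_KOS
theorem all_LS : StLS := pf_LS all_LB all_KOS
theorem all_NULL : StNULL := pf_NULL
theorem all_LEAD : StLEAD := pf_LEAD
theorem all_IRR : StIRR := pf_IRR
theorem all_CONN : StCONN := pf_CONN
theorem all_GM : StGM := pf_GM all_NULL all_CONN all_LS
theorem all_INJA : StINJA := pf_INJA all_NULL all_CONN all_GM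
theorem all_CONST : StCONST := pf_CONST
theorem all_INJB : StINJB := pf_INJB all_CONST all_IRR
theorem all_INJ : StINJ := pf_INJ all_LB all_LS all_NULL all_LEAD all_IRR all_INJA all_INJB
theorem all_FE : StFE := pf_FE all_LB
theorem all_LC : StLC := pf_LC
theorem all_FORM : StFORM := pf_FORM all_LC
theorem all_PF : StPF := pf_PF
theorem all_DEC : StDEC := pf_DEC all_LS
theorem all_RED : StRED := pf_RED all_LB all_NULL
theorem all_HONE : StHONE := pf_HONE
theorem all_HG : StHG := pf_HG all_LB all_HONE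
theorem all_TZ : StTZ := pf_TZ all_LS all_NULL all_PF all_DEC all_RED all_HG all_LB
theorem all_FA : StFA := pf_FA all_LB all_LS all_NULL
theorem all_FB : StFB := pf_FB all_LS
theorem all_DIV : StDIV := pf_DIV all_LB
theorem all_LDV : StLDV := pf_LDV
theorem all_FC : StFC := pf_FC all_LB all_LS all_DEC all_HG all_DIV all_LDV
theorem all_FT : StFT := pf_FT all_PF all_DEC all_RED all_FB all_FC
theorem all_STAB : StSTAB := pf_STAB all_FORM all_TZ all_FA all_FT
theorem all_DLOG : StDLOG := pf_DLOG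
theorem all_LOG : StLOG := pf_LOG
theorem all_TLSUB : StTLSUB := pf_TLSUB all_LOG
theorem all_FINT : StFINT := pf_FINT all_LOG
theorem all_LIN : StLIN := pf_LIN
theorem all_KERN : StKERN := pf_KERN all_LIN
theorem all_SAT : StSAT := pf_SAT all_LB all_FE all_FINT all_KERN
theorem all_STEP : StSTEP := pf_STEP all_LB all_FE all_STAB all_DLOG all_TLSUB all_SAT all_DEC
theorem all_DIMTL : StDIMTL := pf_DIMTL
theorem all_EPS : StEPS := pf_EPS all_LB all_FE all_STEP all_DIMTL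
theorem all_SURJ : StSURJ := pf_SURJ
theorem all_LIS : StLIS := pf_LIS
theorem all_SEMI : StSEMI := pf_SEMI all_LIS
theorem all_RKLE : StRKLE := pf_RKLE
theorem all_RKGE : StRKGE := pf_RKGE all_KERN
theorem all_GEN : StGEN := pf_GEN all_SEMI all_RKLE all_RKGE all_FINT
theorem all_DPI : StDPI := pf_DPI all_DLOG
theorem all_KER : StKER := pf_KER all_LB all_DIV all_LDV
theorem all_JACL : StJACL := pf_JACL all_DPI all_KER all_LB all_FINT
theorem all_SYLL : StSYLL := pf_SYLL all_LB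
theorem all_KEY : StKEY := pf_KEY all_EXL all_INJ all_EPS all_SURJ all_GEN all_JACL all_LIS all_SYLL all_LB
theorem all_SYL : StSYL := pf_SYL
theorem all_FIN : StFIN := pf_FIN all_SYL
theorem all_JIND : StJIND := pf_JIND
theorem all_ALG : StALG := pf_ALG
theorem all_CHAIN : StCHAIN := pf_CHAIN
theorem all_GS : StGS := pf_GS all_JIND all_ALG all_CHAIN
theorem all_DEP : StDEP := pf_DEP
theorem all_THIN : StTHIN := pf_THIN all_DEP
theorem all_PIECE : StPIECE := pf_PIECE all_THIN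
theorem all_CASES : StCASES := pf_CASES all_PIECE
theorem all_BAD : StBAD := pf_BAD all_CASES
theorem all_LIFT : StLIFT := pf_LIFT all_SURJ
theorem all_MORSE : StMORSE := pf_MORSE
theorem all_KILL : StKILL := pf_KILL all_MORSE all_FINT
theorem all_DET : StDET := pf_DET
theorem all_JET : StJET := pf_JET
theorem all_DERO : StDERO := pf_DERO
theorem all_POLYO : StPOLYO := pf_POLYO
theorem all_CJET : StCJET := pf_CJET all_JET all_DERO all_POLYO
theorem all_TAN : StTAN := pf_TAN all_DET all_CJET all_RKLE all_RKGE all_FINT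
theorem all_LOC : StLOC := pf_LOC all_CHAIN
theorem all_PUSH : StPUSH := pf_PUSH
theorem all_SP : StSP := pf_SP
theorem all_XI : StXI := pf_XI
theorem all_FI : StFI := pf_FI
theorem all_AVG : StAVG := pf_AVG all_LIN
theorem all_TSTAR : StTSTAR := pf_TSTAR all_JET all_DERO all_POLYO all_SP all_XI all_FI all_AVG
theorem all_EXACT : StEXACT := pf_EXACT all_SP all_XI all_FI
theorem all_TLEX : StTLEX := pf_TLEX
theorem all_DENS : StDENS := pf_DENS
theorem all_MAIN : StMAIN := pf_MAIN all_KEY all_FIN all_GS all_JIND all_ALG all_BAD all_LIFT all_KILL all_TAN all_LOC all_PUSH all_CHAIN all_DPI all_TLSUB all_TSTAR all_EXACT all_TLEX all_CJET all_DENS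

end CenLoc
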