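import Pool.Agent.P.MP_2862dc_ag.Stmts

/-! Elementary lemmas shared by the proofs. -/

namespace CenLoc

open MvPolynomial Filter Topology

section Alg
variable {R R' : Type} [CommRing R] [CommRing R']

lemma coeff_polyOf {e : ℕ} (c : Mon e → R) (m : Fin 2 →₀ ℕ) :
    coeff m (polyOf c) = if h : m.degree ≤ e then c ⟨m, h⟩ else 0 := by
  classical
  simp only [polyOf, coeff_sum, coeff_monomial]
  split_ifs with h
  · rw [Finset.sum_eq_single ⟨m, h⟩]
    · simp
    · intro b _ hb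
      rw [if_neg]
      intro hh; exact hb (Subtype.ext hh)
    · simp
  · refine Finset.sum_eq_zero fun b _ => if_neg ?_
    intro hh; exact h (hh ▸ b.2)

lemma coeff_polyOf_mon {e : ℕ} (c : Mon e → R) (m : Mon e) : coeff m.1 (polyOf c) = c m := by
  rw [coeff_polyOf, dif_pos m.2]

lemma totalDegree_le_iff {g : Pol R} {e : ℕ} :
    g.totalDegree ≤ e ↔ ∀ m : Fin 2 →₀ ℕ, e < m.degree → coeff m g = 0 := by
  constructor
  · intro h m hm
    apply coeff_eq_zero_of_totalDegree_lt
    exact lt_of_le_of_lt h hm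
  · intro h
    refine Finset.sup_le fun m hm => ?_
    by_contra hh
    exact (mem_support_iff.mp hm) (h m (not_le.mp hh))

lemma totalDegree_polyOf_le {e : ℕ} (c : Mon e → R) : (polyOf c).totalDegree ≤ e :=
  totalDegree_le_iff.mpr fun m hm => by rw [coeff_polyOf, dif_neg (not_le.mpr hm)]

lemma polyOf_coeff {e : ℕ} {g : Pol R} (h : g.totalDegree ≤ e) :
    polyOf (fun m : Mon e => coeff m.1 g) = g := by
  ext m
  rw [coeff_polyOf]
  split_ifs with hm
  · rfl
  · exact (totalDegree_le_iff.mp h m (not_le.mp hm)).symm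

lemma polyOf_zero {e : ℕ} : polyOf (0 : Mon e → R) = 0 := by simp [polyOf]

lemma map_polyOf (φ : R →+* R') {e : ℕ} (c : Mon e → R) :
    map φ (polyOf c) = polyOf fun m => φ (c m) := by
  simp [polyOf, map_monomial]

lemma degLE_form {d : ℕ} (η : Fin 2 × Mon d → R) : DegLE d (form η) :=
  ⟨totalDegree_polyOf_le _, totalDegree_polyOf_le _⟩

lemma form_coords {d : ℕ} {u : Pol R × Pol R} (h : DegLE d u) : form (coords d u) = u := by
  ext1
  · simpa [form, coords] using polyOf_coeff h.1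
  · simpa [form, coords] using polyOf_coeff h.2

lemma coords_form {d : ℕ} (η : Fin 2 × Mon d → R) : coords d (form η) = η := by
  funext ⟨i, m⟩
  fin_cases i <;> simp [form, coords, coeff_polyOf_mon]

lemma form_injective {d : ℕ} : Function.Injective (form : (Fin 2 × Mon d → R) → _) :=
  fun a b h => by rw [← coords_form a, h, coords_form]

lemma mapP_form (φ : R →+* R') {d : ℕ} (η : Fin 2 × Mon d → R) :
    mapP φ (form η) = form fun w => φ (η w) := by
  simp [mapP, form, map_polyOf]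

lemma coords_mapP (φ : R →+* R') (d : ℕ) (u : Pol R × Pol R) (w : Fin 2 × Mon d) :
    coords d (mapP φ u) w = φ (coords d u w) := by
  simp only [coords, mapP]
  split_ifs <;> simp [coeff_map]

lemma DegLE.add {d : ℕ} {u v : Pol R × Pol R} (hu : DegLE d u) (hv : DegLE d v) :
    DegLE d (u + v) :=
  ⟨(totalDegree_add _ _).trans (max_le hu.1 hv.1), (totalDegree_add _ _).trans (max_le hu.2 hv.2)⟩

lemma DegLE.smul {d : ℕ} {u : Pol R × Pol R} (r : R) (hu : DegLE d u) : DegLE d (r • u) :=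
  ⟨(totalDegree_smul_le _ _).trans hu.1, (totalDegree_smul_le _ _).trans hu.2⟩

lemma DegLE.neg {d : ℕ} {u : Pol R × Pol R} (hu : DegLE d u) : DegLE d (-u) :=
  ⟨by simpa using hu.1, by simpa using hu.2⟩

lemma DegLE.sub {d : ℕ} {u v : Pol R × Pol R} (hu : DegLE d u) (hv : DegLE d v) :
    DegLE d (u - v) := by
  rw [sub_eq_add_neg]; exact hu.add hv.neg

lemma degLE_zero (d : ℕ) : DegLE d (0 : Pol R × Pol R) := ⟨by simp, by simp⟩

lemma degLE_sum {d : ℕ} {ι : Type} (s : Finset ι) (u : ι → Pol R × Pol R)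
    (h : ∀ i ∈ s, DegLE d (u i)) : DegLE d (∑ i ∈ s, u i) :=
  Finset.sum_induction _ _ (fun _ _ => DegLE.add) (degLE_zero d) h

lemma DegLE.mul {a b : ℕ} {g : Pol R} {u : Pol R × Pol R} (hg : g.totalDegree ≤ a)
    (hu : DegLE b u) : DegLE (a + b) (g • u) :=
  ⟨(totalDegree_mul _ _).trans (add_le_add hg hu.1),
    (totalDegree_mul _ _).trans (add_le_add hg hu.2)⟩

lemma DegLE.mono {a b : ℕ} {u : Pol R × Pol R} (hu : DegLE a u) (h : a ≤ b) : DegLE b u :=
  ⟨hu.1.trans h, hu.2.trans h⟩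

lemma totalDegree_pderiv_le {e : ℕ} {g : Pol R} (h : g.totalDegree ≤ e) (i : Fin 2) :
    (pderiv i g).totalDegree ≤ e - 1 := by
  refine totalDegree_le_iff.mpr fun m hm => ?_
  rw [coeff_pderiv, totalDegree_le_iff.mp h, zero_mul]
  rw [map_add, Finsupp.degree_single]; omega

lemma degLE_ham {e : ℕ} {g : Pol R} (h : g.totalDegree ≤ e) : DegLE (e - 1) (ham g) :=
  ⟨totalDegree_pderiv_le h 1, by simpa [ham] using totalDegree_pderiv_le h 0⟩

lemma totalDegree_prod_le {ι : Type} (s : Finset ι) (f : ι → Pol R) (e : ι → ℕ)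
    (h : ∀ i ∈ s, (f i).totalDegree ≤ e i) : (∏ i ∈ s, f i).totalDegree ≤ ∑ i ∈ s, e i :=
  (totalDegree_finsetProd _ _).trans (Finset.sum_le_sum h)

/-! ### Order of vanishing -/

lemma mem_mI_pow {N : ℕ} {g : Pol R} :
    g ∈ mI R ^ N ↔ ∀ m : Fin 2 →₀ ℕ, m.degree < N → coeff m g = 0 :=
  mem_pow_idealOfVars_iff' N g

lemma mem_mI {g : Pol R} : g ∈ mI R ↔ coeff 0 g = 0 := by
  rw [← pow_one (mI R), mem_mI_pow]
  constructor
  · intro h; exact h 0 (by simp)
  · intro h m hm
    have : m = 0 := (Finsupp.degree_eq_zero_iff m).mp (by omega)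
    rw [this, h]

lemma mI_pow_mono {a b : ℕ} (h : a ≤ b) {g : Pol R} (hg : g ∈ mI R ^ b) : g ∈ mI R ^ a :=
  Ideal.pow_le_pow_right h hg

lemma mul_mem_mI_pow {a b : ℕ} {g h : Pol R} (hg : g ∈ mI R ^ a) (hh : h ∈ mI R ^ b) :
    g * h ∈ mI R ^ (a + b) := by
  rw [pow_add]; exact Ideal.mul_mem_mul hg hh

lemma pderiv_mem_mI_pow {N : ℕ} {g : Pol R} (hg : g ∈ mI R ^ (N + 1)) (i : Fin 2) :
    pderiv i g ∈ mI R ^ N := by
  refine mem_mI_pow.mpr fun m hm => ?_
  rw [coeff_pderiv, mem_mI_pow.mp hg, zero_mul]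
  rw [map_add, Finsupp.degree_single]; omega

lemma map_mem_mI_pow (φ : R →+* R') {N : ℕ} {g : Pol R} (hg : g ∈ mI R ^ N) :
    map φ g ∈ mI R' ^ N :=
  mem_mI_pow.mpr fun m hm => by rw [coeff_map, mem_mI_pow.mp hg m hm, map_zero]

lemma jet_eq_zero_iff {N : ℕ} {g : Pol R} : jet N g = 0 ↔ g ∈ mI R ^ (N + 1) := by
  rw [mem_mI_pow]
  constructor
  · intro h m hm; exact congrFun h ⟨m, by omega⟩
  · intro h; funext m; exact h m.1 (Nat.lt_succ_of_le m.2)

lemma sub_polyOf_jet (N : ℕ) (g : Pol R) : g - polyOf (jet N g) ∈ mI R ^ (N + 1) := by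
  refine mem_mI_pow.mpr fun m hm => ?_
  rw [coeff_sub, coeff_polyOf, dif_pos (by omega)]
  simp [jet]

lemma act_mem_mI_pow {N : ℕ} {u : Pol R × Pol R} (hu : OrdP 1 u) {a : Pol R}
    (ha : a ∈ mI R ^ N) : act u a ∈ mI R ^ N := by
  cases N with
  | zero => simp
  | succ N =>
    rw [add_comm N 1]
    exact Ideal.add_mem _ (mul_mem_mI_pow hu.1 (pderiv_mem_mI_pow ha 0))
      (mul_mem_mI_pow hu.2 (pderiv_mem_mI_pow ha 1))

/-- A polynomial with constant term `1` can be cancelled modulo powers of the maximal ideal. -/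
lemma mem_mI_pow_of_mul {N : ℕ} {F g : Pol R} (hF : coeff 0 F = 1) (h : F * g ∈ mI R ^ N) :
    g ∈ mI R ^ N := by
  have h1 : 1 - F ∈ mI R := by rw [mem_mI]; simp [hF]
  have key : ∀ n, n ≤ N → g ∈ mI R ^ n := by
    intro n
    induction n with
    | zero => simp
    | succ n ih =>
      intro hn
      have e : g = F * g + g * (1 - F) := by ring
      rw [e]
      refine Ideal.add_mem _ (mI_pow_mono hn h) ?_
      rw [pow_succ]; exact Ideal.mul_mem_mul (ih (by omega)) h1
  exact key N le_rfl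

lemma coeff_zero_prod {ι : Type} (s : Finset ι) (f : ι → Pol R) (h : ∀ i ∈ s, coeff 0 (f i) = 1) :
    coeff 0 (∏ i ∈ s, f i) = 1 := by
  rw [← constantCoeff_eq, map_prod]
  exact Finset.prod_eq_one fun i hi => by rw [constantCoeff_eq, h i hi]

/-! ### Calculus of forms -/

lemma pderiv_comm' (i j : Fin 2) (a : Pol R) : pderiv i (pderiv j a) = pderiv j (pderiv i a) := by
  ext m
  simp only [coeff_pderiv, add_right_comm m (Finsupp.single i 1), Finsupp.add_apply,
    Finsupp.single_apply]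
  by_cases h : i = j
  · subst h; rfl
  · rw [if_neg h, if_neg (Ne.symm h)]; push_cast; ring

lemma wedge_self {S : Type} [CommRing S] (u : S × S) : wedge u u = 0 := by simp [wedge, mul_comm]

lemma wedge_comm {S : Type} [CommRing S] (u v : S × S) : wedge u v = -wedge v u := by
  simp [wedge]; ring

lemma wedge_add_left {S : Type} [CommRing S] (u v w : S × S) :
    wedge (u + v) w = wedge u w + wedge v w := by simp [wedge]; ring

lemma wedge_add_right {S : Type} [CommRing S] (u v w : S × S) :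
    wedge u (v + w) = wedge u v + wedge u w := by simp [wedge]; ring

lemma wedge_sub_left {S : Type} [CommRing S] (u v w : S × S) :
    wedge (u - v) w = wedge u w - wedge v w := by simp [wedge]; ring

lemma wedge_sub_right {S : Type} [CommRing S] (u v w : S × S) :
    wedge u (v - w) = wedge u v - wedge u w := by simp [wedge]; ring

lemma wedge_smul_left {S : Type} [CommRing S] (c : S) (u v : S × S) :
    wedge (c • u) v = c * wedge u v := by simp [wedge]; ring

lemma wedge_smul_right {S : Type} [CommRing S] (c : S) (u v : S × S) :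
    wedge u (c • v) = c * wedge u v := by simp [wedge]; ring

lemma wedge_smul_left' {k S : Type} [CommRing k] [CommRing S] [Algebra k S] (c : k)
    (u v : S × S) : wedge (c • u) v = c • wedge u v := by simp [wedge, smul_sub]

lemma wedge_smul_right' {k S : Type} [CommRing k] [CommRing S] [Algebra k S] (c : k)
    (u v : S × S) : wedge u (c • v) = c • wedge u v := by simp [wedge, smul_sub]

lemma wedge_sum_left {S ι : Type} [CommRing S] (s : Finset ι) (u : ι → S × S) (v : S × S) :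
    wedge (∑ i ∈ s, u i) v = ∑ i ∈ s, wedge (u i) v := by
  simp [wedge, Prod.fst_sum, Prod.snd_sum, Finset.sum_mul]

lemma wedge_sum_right {S ι : Type} [CommRing S] (s : Finset ι) (u : ι → S × S) (v : S × S) :
    wedge v (∑ i ∈ s, u i) = ∑ i ∈ s, wedge v (u i) := by
  simp [wedge, Prod.fst_sum, Prod.snd_sum, Finset.mul_sum]

lemma act_eq_wedge (u : Pol R × Pol R) (a : Pol R) : act u a = wedge (ham a) u := by
  simp [act, wedge, ham]; ring

lemma ham_mul (a b : Pol R) : ham (a * b) = a • ham b + b • ham a := by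
  ext1 <;> simp [ham]; ring

lemma ham_C (r : R) : ham (C r : Pol R) = 0 := by ext1 <;> simp [ham]

lemma ham_one : ham (1 : Pol R) = 0 := by ext1 <;> simp [ham]

lemma ham_zero : ham (0 : Pol R) = 0 := by ext1 <;> simp [ham]

lemma ham_sum {ι : Type} (s : Finset ι) (a : ι → Pol R) :
    ham (∑ i ∈ s, a i) = ∑ i ∈ s, ham (a i) := by
  ext1 <;> simp [ham, Prod.fst_sum, Prod.snd_sum]

lemma ham_prod {ι : Type} [DecidableEq ι] (s : Finset ι) (a : ι → Pol R) :
    ham (∏ i ∈ s, a i) = ∑ i ∈ s, (∏ j ∈ s.erase i, a j) • ham (a i) := by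
  induction s using Finset.induction_on with
  | empty => simp [ham_one]
  | insert i s hi ih =>
    rw [Finset.prod_insert hi, Finset.sum_insert hi, Finset.erase_insert hi, ham_mul, ih,
      Finset.smul_sum, add_comm]
    congr 1
    refine Finset.sum_congr rfl fun j hj => ?_
    have hij : i ≠ j := fun h => hi (h ▸ hj)
    rw [Finset.erase_insert_of_ne hij, Finset.prod_insert fun h => hi (Finset.mem_of_mem_erase h),
      smul_smul]

lemma dvg_ham (a : Pol R) : dvg (ham a) = 0 := by simp [dvg, ham, pderiv_comm' 0 1]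

lemma dvg_smul (c : Pol R) (u : Pol R × Pol R) : dvg (c • u) = c * dvg u + wedge (ham c) u := by
  simp [dvg, wedge, ham]; ring

lemma dvg_add (u v : Pol R × Pol R) : dvg (u + v) = dvg u + dvg v := by simp [dvg]; ring

lemma dvg_sum {ι : Type} (s : Finset ι) (u : ι → Pol R × Pol R) :
    dvg (∑ i ∈ s, u i) = ∑ i ∈ s, dvg (u i) := by
  simp [dvg, Prod.fst_sum, Prod.snd_sum, Finset.sum_add_distrib]

lemma smul_eq_C_smul (r : R) (u : Pol R × Pol R) : r • u = (C r : Pol R) • u := by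
  ext1 <;> simp [smul_eq_C_mul]

variable {G : Type} [Fintype G] [DecidableEq G]

lemma om_eq (f : G → Pol R) (lam : G → R) : om f lam = ∑ g, lam g • lg f g := by
  ext1 <;> simp [om, lg, ham, Prod.fst_sum, Prod.snd_sum, smul_eq_C_mul, mul_assoc]

lemma lg_mul (f : G → Pol R) {g j : G} (h : j ≠ g) :
    f g * ∏ m ∈ (Finset.univ.erase g).erase j, f m = ∏ m ∈ Finset.univ.erase j, f m := by
  rw [Finset.erase_right_comm]
  exact Finset.mul_prod_erase _ f (Finset.mem_erase.mpr ⟨h.symm, Finset.mem_univ g⟩)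

/-- `f g • tv = lam g (F dh - h F df_g / f_g) + h ω`, multiplied out. -/
lemma smul_tv (f : G → Pol R) (lam : G → R) (g : G) (h : Pol R) :
    f g • tv f lam g h = (C (lam g) * ∏ j, f j) • ham h - (C (lam g) * h) • lg f g +
      h • om f lam := by
  have e1 : f g • ∑ j ∈ Finset.univ.erase g,
      (C (lam j) * ∏ m ∈ (Finset.univ.erase g).erase j, f m) • ham (f j) =
      om f lam - (C (lam g) : Pol R) • lg f g := by
    rw [om_eq, ← Finset.add_sum_erase _ _ (Finset.mem_univ g), ← smul_eq_C_smul,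
      add_sub_cancel_left, Finset.smul_sum]
    refine Finset.sum_congr rfl fun j hj => ?_
    rw [smul_smul, smul_eq_C_smul, lg, smul_smul, mul_left_comm,
      lg_mul f (Finset.ne_of_mem_erase hj)]
  rw [tv, smul_add, smul_comm (f g) h, e1, smul_smul, mul_left_comm,
    Finset.mul_prod_erase _ f (Finset.mem_univ g), smul_sub, smul_smul, mul_comm h]
  abel

lemma tv_self (f : G → Pol R) (lam : G → R) (g : G) : tv f lam g (f g) = om f lam := by
  rw [tv, om_eq, ← Finset.add_sum_erase _ _ (Finset.mem_univ g), Finset.smul_sum]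
  congr 1
  · rw [smul_eq_C_smul, lg, smul_smul]
  · refine Finset.sum_congr rfl fun j hj => ?_
    rw [smul_smul, smul_eq_C_smul, lg, smul_smul, mul_left_comm,
      lg_mul f (Finset.ne_of_mem_erase hj)]

/-- `om f lam / ∏ f` is closed. -/
lemma om_closed (f : G → Pol R) (lam : G → R) :
    (∏ g, f g) * dvg (om f lam) = wedge (ham (∏ g, f g)) (om f lam) := by
  rw [om_eq, dvg_sum, wedge_sum_right, Finset.mul_sum]
  refine Finset.sum_congr rfl fun g _ => ?_
  rw [← Finset.mul_prod_erase _ f (Finset.mem_univ g), lg, smul_eq_C_smul, smul_smul, dvg_smul,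
    dvg_ham, ham_mul, ham_mul, ham_C]
  simp [wedge]; ring

lemma degLE_lg {d : ℕ} {dd : G → ℕ} {f : G → Pol R} (h1 : ∀ g, 1 ≤ dd g)
    (hs : ∑ g, dd g = d + 1) (hf : ∀ g, (f g).totalDegree ≤ dd g) (g : G) : DegLE d (lg f g) := by
  refine (DegLE.mul (totalDegree_prod_le _ f dd fun i _ => hf i) (degLE_ham (hf g))).mono ?_
  have := Finset.add_sum_erase _ dd (Finset.mem_univ g)
  have := h1 g
  omega

lemma degLE_om {d : ℕ} {dd : G → ℕ} {f : G → Pol R} (lam : G → R) (h1 : ∀ g, 1 ≤ dd g)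
    (hs : ∑ g, dd g = d + 1) (hf : ∀ g, (f g).totalDegree ≤ dd g) : DegLE d (om f lam) := by
  rw [om_eq]
  exact degLE_sum _ _ fun g _ => (degLE_lg h1 hs hf g).smul _

lemma degLE_tv {d : ℕ} {dd : G → ℕ} {f : G → Pol R} (lam : G → R) (h1 : ∀ g, 1 ≤ dd g)
    (hs : ∑ g, dd g = d + 1) (hf : ∀ g, (f g).totalDegree ≤ dd g) (g : G) {h : Pol R}
    (hh : h.totalDegree ≤ dd g) : DegLE d (tv f lam g h) := by
  have e1 := Finset.add_sum_erase _ dd (Finset.mem_univ g)
  have hC : ∀ (r : R) (x : Pol R) (n : ℕ), x.totalDegree ≤ n → (C r * x).totalDegree ≤ n :=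
    fun r x n hx => (totalDegree_mul _ _).trans (by simpa using hx)
  refine DegLE.add ?_ ?_
  · refine (DegLE.mul (hC _ _ _ (totalDegree_prod_le _ f dd fun i _ => hf i))
      (degLE_ham hh)).mono ?_
    have := h1 g
    omega
  · rw [Finset.smul_sum]
    refine degLE_sum _ _ fun j hj => ?_
    refine (DegLE.mul hh (DegLE.mul (hC _ _ _ (totalDegree_prod_le _ f dd fun i _ => hf i))
      (degLE_ham (hf j)))).mono ?_
    have := Finset.add_sum_erase _ dd hj
    have := h1 j
    omega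

lemma degLE_of_mem_InTL {d : ℕ} {dd : G → ℕ} {f : G → Pol R} {lam : G → R} (h1 : ∀ g, 1 ≤ dd g)
    (hs : ∑ g, dd g = d + 1) (hf : ∀ g, (f g).totalDegree ≤ dd g) {u : Pol R × Pol R}
    (hu : u ∈ InTL dd f lam) : DegLE d u := by
  obtain ⟨h, μ, hh, rfl⟩ := hu
  exact (degLE_sum _ _ fun g _ => degLE_tv lam h1 hs hf g (hh g)).add
    (degLE_sum _ _ fun g _ => (degLE_lg h1 hs hf g).smul _)

lemma mem_InT {N : ℕ} {f : G → Pol R} {lam : G → R} {u : Pol R × Pol R} : u ∈ InT N f lam ↔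
    ∃ a, wedge u (om f lam) - (∏ g, f g) * act (om f lam) a ∈ mI R ^ N := Iff.rfl

lemma mem_InTL {dd : G → ℕ} {f : G → Pol R} {lam : G → R} {u : Pol R × Pol R} :
    u ∈ InTL dd f lam ↔ ∃ (h : G → Pol R) (μ : G → R), (∀ g, (h g).totalDegree ≤ dd g) ∧
      u = ∑ g, tv f lam g (h g) + ∑ g, μ g • lg f g := Iff.rfl

lemma mem_TN {d N : ℕ} {f : G → Pol R} {lam : G → R} {p : Fin 2 → R} {η : Fin 2 × Mon d → R} :
    η ∈ TN d N f lam p ↔ trP p (form η) ∈ InT N f lam := Iff.rfl

lemma mem_TL {d : ℕ} {dd : G → ℕ} {f : G → Pol R} {lam : G → R} {p : Fin 2 → R}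
    {η : Fin 2 × Mon d → R} : η ∈ TL d dd f lam p ↔ trP p (form η) ∈ InTL dd f lam := Iff.rfl

lemma InT_anti {N M : ℕ} (h : N ≤ M) (f : G → Pol R) (lam : G → R) :
    InT M f lam ≤ InT N f lam := fun _ ⟨a, ha⟩ => ⟨a, mI_pow_mono h ha⟩

/-! ### Change of coefficients -/

lemma mapP_add (φ : R →+* R') (u v : Pol R × Pol R) : mapP φ (u + v) = mapP φ u + mapP φ v := by
  simp [mapP]

lemma mapP_sub (φ : R →+* R') (u v : Pol R × Pol R) : mapP φ (u - v) = mapP φ u - mapP φ v := by
  simp [mapP]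

lemma mapP_smul (φ : R →+* R') (c : Pol R) (u : Pol R × Pol R) :
    mapP φ (c • u) = map φ c • mapP φ u := by simp [mapP]

lemma mapP_smul' (φ : R →+* R') (c : R) (u : Pol R × Pol R) :
    mapP φ (c • u) = φ c • mapP φ u := by
  rw [smul_eq_C_smul, mapP_smul, map_C, ← smul_eq_C_smul]

lemma mapP_sum (φ : R →+* R') {ι : Type} (s : Finset ι) (u : ι → Pol R × Pol R) :
    mapP φ (∑ i ∈ s, u i) = ∑ i ∈ s, mapP φ (u i) := by
  ext1 <;> simp [mapP, Prod.fst_sum, Prod.snd_sum]

lemma mapP_ham (φ : R →+* R') (a : Pol R) : mapP φ (ham a) = ham (map φ a) := by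
  simp [mapP, ham, pderiv_map]

lemma map_wedge (φ : R →+* R') (u v : Pol R × Pol R) :
    map φ (wedge u v) = wedge (mapP φ u) (mapP φ v) := by simp [mapP, wedge]

lemma map_act (φ : R →+* R') (u : Pol R × Pol R) (a : Pol R) :
    map φ (act u a) = act (mapP φ u) (map φ a) := by simp [mapP, act, pderiv_map]

lemma map_dvg (φ : R →+* R') (u : Pol R × Pol R) : map φ (dvg u) = dvg (mapP φ u) := by
  simp [mapP, dvg, pderiv_map]

lemma map_jacP (φ : R →+* R') (u : Pol R × Pol R) : map φ (jacP u) = jacP (mapP φ u) := by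
  simp [mapP, jacP, pderiv_map]

lemma jac_mapP (φ : R →+* R') (u : Pol R × Pol R) : jac (mapP φ u) = φ (jac u) := by
  rw [jac, ← map_jacP, coeff_map, jac]

lemma mapP_lg (φ : R →+* R') (f : G → Pol R) (g : G) :
    mapP φ (lg f g) = lg (fun j => map φ (f j)) g := by
  simp [lg, mapP_smul, mapP_ham]

lemma mapP_om (φ : R →+* R') (f : G → Pol R) (lam : G → R) :
    mapP φ (om f lam) = om (fun j => map φ (f j)) fun j => φ (lam j) := by
  simp [om_eq, mapP_sum, mapP_smul', mapP_lg]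

lemma mapP_tv (φ : R →+* R') (f : G → Pol R) (lam : G → R) (g : G) (h : Pol R) :
    mapP φ (tv f lam g h) = tv (fun j => map φ (f j)) (fun j => φ (lam j)) g (map φ h) := by
  simp only [tv, mapP_add, mapP_sum, mapP_smul, mapP_ham, map_mul, map_prod, map_C]

lemma totalDegree_map_le' (φ : R →+* R') (g : Pol R) : (map φ g).totalDegree ≤ g.totalDegree :=
  totalDegree_le_iff.mpr fun m hm => by
    rw [coeff_map, totalDegree_le_iff.mp le_rfl m hm, map_zero]

omit [DecidableEq G] in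
lemma Nrm.map {dd : G → ℕ} {f : G → Pol R} {lam : G → R} (h : Nrm dd f lam) (φ : R →+* R') :
    Nrm dd (fun j => map φ (f j)) fun j => φ (lam j) where
  deg g := (totalDegree_map_le' φ _).trans (h.deg g)
  one g := by rw [coeff_map, h.one, map_one]
  crit i := by simpa [coeff_map] using congrArg φ (h.crit i)

/-! ### Translations -/

lemma tr_X (p : Fin 2 → R) (i : Fin 2) : tr p (X i) = X i + C (p i) := by simp [tr]

lemma tr_C (p : Fin 2 → R) (r : R) : tr p (C r) = C r := by simp [tr]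

lemma pderiv_tr (p : Fin 2 → R) (i : Fin 2) (g : Pol R) :
    pderiv i (tr p g) = tr p (pderiv i g) := by
  induction g using MvPolynomial.induction_on with
  | C r => simp
  | add a b ha hb => simp [ha, hb]
  | mul_X a j ha =>
    simp only [map_mul, Derivation.leibniz, smul_eq_mul, map_add, ha, tr_X, pderiv_C, add_zero]
    by_cases h : j = i
    · subst h; simp
    · simp [pderiv_X_of_ne h]

lemma eval_tr (p z : Fin 2 → R) (g : Pol R) : eval z (tr p g) = eval (z + p) g := by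
  induction g using MvPolynomial.induction_on with
  | C r => simp
  | add a b ha hb => simp [ha, hb]
  | mul_X a j ha => simp [ha, tr_X]

lemma eval_sub_tr (p z : Fin 2 → R) (g : Pol R) : eval (z - p) (tr p g) = eval z g := by
  rw [eval_tr, sub_add_cancel]

lemma tr_tr (p q : Fin 2 → R) (g : Pol R) : tr p (tr q g) = tr (p + q) g := by
  induction g using MvPolynomial.induction_on with
  | C r => simp
  | add a b ha hb => simp [ha, hb]
  | mul_X a j ha => simp [ha, tr_X, add_assoc]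

lemma tr_zero (g : Pol R) : tr 0 g = g := by
  induction g using MvPolynomial.induction_on with
  | C r => simp
  | add a b ha hb => simp [ha, hb]
  | mul_X a j ha => simp [ha, tr_X]

lemma trP_zero (u : Pol R × Pol R) : trP 0 u = u := by simp [trP, tr_zero]

lemma tr_neg_tr (p : Fin 2 → R) (g : Pol R) : tr (-p) (tr p g) = g := by
  rw [tr_tr, neg_add_cancel, tr_zero]

lemma tr_tr_neg (p : Fin 2 → R) (g : Pol R) : tr p (tr (-p) g) = g := by
  rw [tr_tr, add_neg_cancel, tr_zero]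

lemma coeff_zero_tr (p : Fin 2 → R) (g : Pol R) : coeff 0 (tr p g) = eval p g := by
  rw [← constantCoeff_eq, ← eval_zero, eval_tr, zero_add]

lemma map_tr (φ : R →+* R') (p : Fin 2 → R) (g : Pol R) :
    map φ (tr p g) = tr (fun i => φ (p i)) (map φ g) := by
  induction g using MvPolynomial.induction_on with
  | C r => simp
  | add a b ha hb => simp [ha, hb]
  | mul_X a j ha => simp [ha, tr_X]

lemma totalDegree_tr_le (p : Fin 2 → R) (g : Pol R) : (tr p g).totalDegree ≤ g.totalDegree := by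
  conv_lhs => rw [g.as_sum, map_sum]
  refine totalDegree_finsetSum_le fun m hm => ?_
  refine le_trans ?_ (le_totalDegree hm)
  rw [monomial_eq, map_mul, tr_C, Finsupp.prod, map_prod]
  refine (totalDegree_mul _ _).trans ?_
  rw [totalDegree_C, zero_add]
  refine totalDegree_prod_le _ _ _ fun i _ => ?_
  rw [map_pow, tr_X]
  refine (totalDegree_pow _ _).trans ?_
  have : (X i + C (p i) : Pol R).totalDegree ≤ 1 :=
    (totalDegree_add _ _).trans (max_le (isHomogeneous_X R i).totalDegree_le (by simp))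
  simpa using Nat.mul_le_mul_left (m i) this

lemma trP_add (p : Fin 2 → R) (u v : Pol R × Pol R) : trP p (u + v) = trP p u + trP p v := by
  simp [trP]

lemma trP_smul (p : Fin 2 → R) (c : Pol R) (u : Pol R × Pol R) :
    trP p (c • u) = tr p c • trP p u := by simp [trP]

lemma trP_smul' (p : Fin 2 → R) (c : R) (u : Pol R × Pol R) : trP p (c • u) = c • trP p u := by
  simp [trP]

lemma trP_sum (p : Fin 2 → R) {ι : Type} (s : Finset ι) (u : ι → Pol R × Pol R) :
    trP p (∑ i ∈ s, u i) = ∑ i ∈ s, trP p (u i) := by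
  ext1 <;> simp [trP, Prod.fst_sum, Prod.snd_sum]

lemma trP_ham (p : Fin 2 → R) (a : Pol R) : trP p (ham a) = ham (tr p a) := by
  simp [trP, ham, pderiv_tr]

lemma tr_wedge (p : Fin 2 → R) (u v : Pol R × Pol R) :
    tr p (wedge u v) = wedge (trP p u) (trP p v) := by simp [trP, wedge]

lemma tr_act (p : Fin 2 → R) (u : Pol R × Pol R) (a : Pol R) :
    tr p (act u a) = act (trP p u) (tr p a) := by simp [trP, act, pderiv_tr]

lemma tr_dvg (p : Fin 2 → R) (u : Pol R × Pol R) : tr p (dvg u) = dvg (trP p u) := by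
  simp [trP, dvg, pderiv_tr]

lemma jac_trP (p : Fin 2 → R) (u : Pol R × Pol R) : jac (trP p u) = eval p (jacP u) := by
  rw [← coeff_zero_tr]; simp [jac, jacP, trP, pderiv_tr]

lemma trP_lg (p : Fin 2 → R) (f : G → Pol R) (g : G) :
    trP p (lg f g) = lg (fun j => tr p (f j)) g := by
  simp [lg, trP_smul, trP_ham]

lemma trP_om (p : Fin 2 → R) (f : G → Pol R) (lam : G → R) :
    trP p (om f lam) = om (fun j => tr p (f j)) lam := by
  simp [om_eq, trP_sum, trP_smul', trP_lg]

lemma trP_tv (p : Fin 2 → R) (f : G → Pol R) (lam : G → R) (g : G) (h : Pol R) :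
    trP p (tv f lam g h) = tv (fun j => tr p (f j)) lam g (tr p h) := by
  simp only [tv, trP_add, trP_sum, trP_smul, trP_ham, tr_C, map_mul, map_prod]

lemma trP_mem_InTL (p : Fin 2 → R) {dd : G → ℕ} {f : G → Pol R} {lam : G → R}
    {u : Pol R × Pol R} (hu : u ∈ InTL dd f lam) :
    trP p u ∈ InTL dd (fun j => tr p (f j)) lam := by
  obtain ⟨h, μ, hh, rfl⟩ := hu
  refine ⟨fun g => tr p (h g), μ, fun g => (totalDegree_tr_le p _).trans (hh g), ?_⟩
  simp [trP_add, trP_sum, trP_smul', trP_tv, trP_lg]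

lemma mapP_trP (φ : R →+* R') (p : Fin 2 → R) (u : Pol R × Pol R) :
    mapP φ (trP p u) = trP (fun i => φ (p i)) (mapP φ u) := by simp [mapP, trP, map_tr]

end Alg

/-! ### Derivations -/

section Der
variable {R k : Type} [CommRing R] [CommRing k] (D : Der R k)

lemma Der.c1_one : D.c1 1 = 0 := by
  have := D.leib 1 1
  simpa using this

lemma Der.coeff_p1 (g : Pol R) (m : Fin 2 →₀ ℕ) : coeff m (D.p1 g) = D.c1 (coeff m g) := by
  classical
  simp only [Der.p1, coeff_sum, coeff_monomial, Finset.sum_ite_eq']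
  split_ifs with h
  · rfl
  · rw [notMem_support_iff.mp h, map_zero]

lemma Der.p1_add (a b : Pol R) : D.p1 (a + b) = D.p1 a + D.p1 b := by
  ext m; simp [D.coeff_p1]

lemma Der.p1_sub (a b : Pol R) : D.p1 (a - b) = D.p1 a - D.p1 b := by
  ext m; simp [D.coeff_p1]

lemma Der.p1_neg (a : Pol R) : D.p1 (-a) = -D.p1 a := by
  ext m; simp [D.coeff_p1]

lemma Der.p1_zero : D.p1 0 = 0 := by
  ext m; simp [D.coeff_p1]

lemma Der.p1_mul (a b : Pol R) : D.p1 (a * b) = map D.c0 a * D.p1 b + D.p1 a * map D.c0 b := by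
  classical
  ext m
  simp [D.coeff_p1, coeff_mul, D.leib, coeff_map, Finset.sum_add_distrib]

lemma Der.p1_C (r : R) : D.p1 (C r) = C (D.c1 r) := by
  classical
  ext m
  simp only [D.coeff_p1, coeff_C]
  split_ifs <;> simp

lemma Der.p1_one : D.p1 1 = 0 := by rw [← C_1, D.p1_C, D.c1_one, C_0]

lemma Der.p1_X (i : Fin 2) : D.p1 (X i) = 0 := by
  classical
  ext m
  simp only [D.coeff_p1, coeff_X]
  split_ifs <;> simp [D.c1_one]

lemma Der.p1_sum {ι : Type} (s : Finset ι) (a : ι → Pol R) :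
    D.p1 (∑ i ∈ s, a i) = ∑ i ∈ s, D.p1 (a i) := by
  ext m; simp [D.coeff_p1, coeff_sum]

lemma Der.c1_natCast (n : ℕ) : D.c1 (n : R) = 0 := by
  induction n with
  | zero => simp
  | succ n ih => simp [ih, D.c1_one]

lemma Der.p1_pderiv (i : Fin 2) (a : Pol R) : D.p1 (pderiv i a) = pderiv i (D.p1 a) := by
  ext m
  have := D.c1_natCast (m i + 1)
  push_cast at this
  simp [D.coeff_p1, coeff_pderiv, D.leib, this]

lemma Der.totalDegree_p1_le (a : Pol R) : (D.p1 a).totalDegree ≤ a.totalDegree :=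
  totalDegree_le_iff.mpr fun m hm => by
    rw [D.coeff_p1, totalDegree_le_iff.mp le_rfl m hm, map_zero]

lemma Der.p1_mem_mI_pow {N : ℕ} {g : Pol R} (hg : g ∈ mI R ^ N) : D.p1 g ∈ mI k ^ N :=
  mem_mI_pow.mpr fun m hm => by rw [D.coeff_p1, mem_mI_pow.mp hg m hm, map_zero]

lemma Der.p1_polyOf {e : ℕ} (c : Mon e → R) : D.p1 (polyOf c) = polyOf fun m => D.c1 (c m) := by
  ext m
  simp only [D.coeff_p1, coeff_polyOf]
  split_ifs <;> simp

lemma Der.p1P_form {d : ℕ} (η : Fin 2 × Mon d → R) :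
    D.p1P (form η) = form fun w => D.c1 (η w) := by
  simp [Der.p1P, form, D.p1_polyOf]

lemma Der.p1_wedge (u v : Pol R × Pol R) :
    D.p1 (wedge u v) = wedge (D.p1P u) (mapP D.c0 v) + wedge (mapP D.c0 u) (D.p1P v) := by
  simp only [wedge, D.p1_sub, D.p1_mul, Der.p1P, mapP]; ring

lemma Der.p1_act (u : Pol R × Pol R) (a : Pol R) :
    D.p1 (act u a) = act (D.p1P u) (map D.c0 a) + act (mapP D.c0 u) (D.p1 a) := by
  simp only [act, D.p1_add, D.p1_mul, D.p1_pderiv, Der.p1P, mapP, pderiv_map]; ring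

/-- Chain rule for a moving translation. -/
lemma Der.p1_tr (p : Fin 2 → R) (g : Pol R) :
    D.p1 (tr p g) = tr (fun i => D.c0 (p i)) (D.p1 g) +
      ∑ i, C (D.c1 (p i)) * pderiv i (tr (fun i => D.c0 (p i)) (map D.c0 g)) := by
  induction g using MvPolynomial.induction_on with
  | C r => simp [D.p1_C]
  | add a b ha hb =>
    simp only [map_add, D.p1_add, ha, hb, mul_add, Finset.sum_add_distrib]; ring
  | mul_X a j ha =>
    simp only [map_mul, D.p1_mul, ha, tr_X, D.p1_add, D.p1_X, D.p1_C, map_tr, map_add, map_X,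
      map_C, map_zero, Derivation.leibniz, smul_eq_mul, pderiv_C, Fin.sum_univ_two]
    fin_cases j <;> simp <;> ring

lemma Der.pt_c0 {κ : Type} [Fintype κ] [Algebra ℂ k] (τ v : κ → k) (Φ : MvPolynomial κ ℂ) :
    (Der.pt τ v).c0 Φ = aeval τ Φ := rfl

lemma Der.pt_c1 {κ : Type} [Fintype κ] [Algebra ℂ k] (τ v : κ → k) (Φ : MvPolynomial κ ℂ) :
    (Der.pt τ v).c1 Φ = ∑ u, aeval τ (pderiv u Φ) * v u := rfl

lemma Der.pt_c1_X {κ : Type} [Fintype κ] [Algebra ℂ k] (τ v : κ → k) (u : κ) :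
    (Der.pt τ v).c1 (X u) = v u := by
  classical
  simp [Der.pt_c1, Pi.single_apply]

lemma dmap_apply {ι κ : Type} [Fintype κ] [Algebra ℂ k] (θ : ι → MvPolynomial κ ℂ) (τ v : κ → k)
    (i : ι) : dmap θ τ v i = (Der.pt τ v).c1 (θ i) := rfl

lemma Der.eps_c0 (x : Polynomial k) : (Der.eps k).c0 x = x.coeff 0 := rfl

lemma Der.eps_c1 (x : Polynomial k) : (Der.eps k).c1 x = x.coeff 1 := rfl

end Der

/-! ### The chart -/

section Chart
variable {R R' : Type} [CommRing R] [CommRing R'] {G : Type} [Fintype G] [DecidableEq G]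
  {dd : G → ℕ} (g0 : G)

omit [Fintype G] [DecidableEq G] in
lemma yext_map (φ : R →+* R') (τ : Idx dd → R) (g : G) (m : Fin 2 →₀ ℕ) :
    yext (fun u => φ (τ u)) g m = φ (yext τ g m) := by
  simp only [yext]; split_ifs <;> simp

omit [Fintype G] [DecidableEq G] in
lemma yp_map (φ : R →+* R') (τ : Idx dd → R) :
    yp g0 (fun u => φ (τ u)) = fun i => φ (yp g0 τ i) := by
  funext i; simp [yp, yext_map]

omit [Fintype G] in
lemma ynu_map (φ : R →+* R') (τ : Idx dd → R) (g : G) :
    ynu g0 (fun u => φ (τ u)) g = φ (ynu g0 τ g) := by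
  simp only [ynu, yext_map]; split_ifs <;> simp

omit [Fintype G] in
lemma ylam_map (φ : R →+* R') (τ : Idx dd → R) :
    ylam g0 (fun u => φ (τ u)) = fun g => φ (ylam g0 τ g) := by
  funext g; simp [ylam, yext_map, ynu_map]

lemma yf_map (φ : R →+* R') (τ : Idx dd → R) :
    yf g0 (fun u => φ (τ u)) = fun g => map φ (yf g0 τ g) := by
  funext g
  simp only [yf, map_polyOf]
  congr 1
  funext m
  simp only [ycf, yext_map, ynu_map]
  split_ifs <;> simp only [map_one, map_neg, map_sum, map_mul]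

lemma yF_map (φ : R →+* R') (τ : Idx dd → R) :
    yF g0 (fun u => φ (τ u)) = fun g => map φ (yF g0 τ g) := by
  funext g
  simp only [yF, map_tr, yf_map, yp_map]
  congr 2
  funext i; simp

lemma ypi_map (φ : R →+* R') (d : ℕ) (τ : Idx dd → R) :
    ypi d g0 (fun u => φ (τ u)) = fun w => φ (ypi d g0 τ w) := by
  funext w
  rw [ypi, ypi, ← coords_mapP, mapP_om, yF_map, ylam_map]

lemma aeval_piU [Algebra ℂ R] (d : ℕ) (τ : Idx dd → R) (w : Fin 2 × Mon d) :
    aeval τ (piU d dd g0 w) = ypi d g0 τ w := by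
  have := congrFun (ypi_map g0 (aeval τ : MvPolynomial (Idx dd) ℂ →ₐ[ℂ] R).toRingHom d X) w
  simpa [piU] using this.symm

lemma map_aeval_yf [Algebra ℂ R] (τ : Idx dd → R) (g : G) :
    map (aeval τ : MvPolynomial (Idx dd) ℂ →ₐ[ℂ] R).toRingHom (yf g0 X g) = yf g0 τ g := by
  have := congrFun (yf_map g0 (aeval τ : MvPolynomial (Idx dd) ℂ →ₐ[ℂ] R).toRingHom X) g
  simpa using this.symm

lemma map_aeval_yF [Algebra ℂ R] (τ : Idx dd → R) (g : G) :
    map (aeval τ : MvPolynomial (Idx dd) ℂ →ₐ[ℂ] R).toRingHom (yF g0 X g) = yF g0 τ g := by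
  have := congrFun (yF_map g0 (aeval τ : MvPolynomial (Idx dd) ℂ →ₐ[ℂ] R).toRingHom X) g
  simpa using this.symm

omit [Fintype G] in
lemma aeval_ylam [Algebra ℂ R] (τ : Idx dd → R) (g : G) :
    aeval τ (ylam g0 (X : Idx dd → MvPolynomial (Idx dd) ℂ) g) = ylam g0 τ g := by
  have := congrFun (ylam_map g0 (aeval τ : MvPolynomial (Idx dd) ℂ →ₐ[ℂ] R).toRingHom X) g
  simpa using this.symm

omit [Fintype G] [DecidableEq G] in
lemma aeval_yp [Algebra ℂ R] (τ : Idx dd → R) (i : Fin 2) :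
    aeval τ (yp g0 (X : Idx dd → MvPolynomial (Idx dd) ℂ) i) = yp g0 τ i := by
  have := congrFun (yp_map g0 (aeval τ : MvPolynomial (Idx dd) ℂ →ₐ[ℂ] R).toRingHom X) i
  simpa using this.symm

lemma aeval_piT [Algebra ℂ R] (d : ℕ) (τ : Idx dd → R) :
    (fun i => aeval τ (piT d dd g0 i)) = Sum.elim (ypi d g0 τ) (yp g0 τ) := by
  funext i
  rcases i with w | i
  · simp [piT, aeval_piU]
  · simp [piT, aeval_yp]

lemma coeff_yf (τ : Idx dd → R) (g : G) (m : Fin 2 →₀ ℕ) (hm : m.degree ≤ dd g) :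
    coeff m (yf g0 τ g) = ycf g0 τ g m := by
  rw [yf, coeff_polyOf, dif_pos hm]

lemma nrm_y (h1 : ∀ g, 1 ≤ dd g) (τ : Idx dd → R) : Nrm dd (yf g0 τ) (ylam g0 τ) where
  deg g := totalDegree_polyOf_le _
  one g := by rw [coeff_yf _ _ _ _ (by simp)]; simp [ycf]
  crit i := by
    have hd : ∀ g, (Finsupp.single i 1 : Fin 2 →₀ ℕ).degree ≤ dd g := fun g => by
      simpa using h1 g
    have h0 : (Finsupp.single i 1 : Fin 2 →₀ ℕ) ≠ 0 := by simp
    rw [← Finset.add_sum_erase _ _ (Finset.mem_univ g0), coeff_yf _ _ _ _ (hd _)]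
    have e : ∑ g ∈ Finset.univ.erase g0, ylam g0 τ g * coeff (Finsupp.single i 1) (yf g0 τ g) =
        yext τ g0 0 * ∑ g ∈ Finset.univ.erase g0,
          ynu g0 τ g * yext τ g (Finsupp.single i 1) := by
      rw [Finset.mul_sum]
      refine Finset.sum_congr rfl fun g hg => ?_
      rw [coeff_yf _ _ _ _ (hd _), ycf, if_neg h0,
        if_neg fun h => Finset.ne_of_mem_erase hg h.1, ylam, mul_assoc]
    rw [e, ycf, if_neg h0, if_pos ⟨rfl, by simp⟩, ylam, ynu, if_pos rfl]
    ring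

lemma totalDegree_yF_le (τ : Idx dd → R) (g : G) : (yF g0 τ g).totalDegree ≤ dd g :=
  (totalDegree_tr_le _ _).trans (totalDegree_polyOf_le _)

lemma tr_yF (τ : Idx dd → R) (g : G) : tr (yp g0 τ) (yF g0 τ g) = yf g0 τ g := tr_tr_neg _ _

lemma eval_yF (τ : Idx dd → R) (g : G) : eval (yp g0 τ) (yF g0 τ g) = 1 := by
  rw [← coeff_zero_tr, tr_yF, coeff_yf _ _ _ _ (by simp)]; simp [ycf]

lemma trP_om_yF (τ : Idx dd → R) :
    trP (yp g0 τ) (om (yF g0 τ) (ylam g0 τ)) = om (yf g0 τ) (ylam g0 τ) := by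
  rw [trP_om]; congr 1; funext g; exact tr_yF g0 τ g

lemma form_ypi {d : ℕ} (h1 : ∀ g, 1 ≤ dd g) (hs : ∑ g, dd g = d + 1) (τ : Idx dd → R) :
    form (ypi d g0 τ) = om (yF g0 τ) (ylam g0 τ) :=
  form_coords (degLE_om _ h1 hs (totalDegree_yF_le g0 τ))

end Chart

/-! ### Polynomial functions -/

lemma analyticAt_eval (g : Pol ℂ) (z : Pt) : AnalyticAt ℂ (fun x : Pt => eval x g) z := by
  have := AnalyticAt.aeval_mvPolynomial (𝕜 := ℂ) (f := fun (x : Pt) (i : Fin 2) => x i) (z := z)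
    (fun i => (ContinuousLinearMap.proj (R := ℂ) (φ := fun _ : Fin 2 => ℂ) i).analyticAt z) g
  simpa [aeval_eq_eval] using this

lemma hasFDerivAt_eval (g : Pol ℂ) (z : Pt) : HasFDerivAt (fun x : Pt => eval x g)
    (∑ i, eval z (pderiv i g) • (ContinuousLinearMap.proj i : Pt →L[ℂ] ℂ)) z := by
  induction g using MvPolynomial.induction_on with
  | C r =>
    simp only [eval_C]
    refine (hasFDerivAt_const (𝕜 := ℂ) r z).congr_fderiv ?_
    ext v
    simp
  | add a b ha hb =>
    simp only [map_add]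
    refine (ha.add hb).congr_fderiv ?_
    ext v
    simp; ring
  | mul_X a j ha =>
    have hj : HasFDerivAt (fun x : Pt => x j) (ContinuousLinearMap.proj j : Pt →L[ℂ] ℂ) z :=
      hasFDerivAt_apply j z
    simp only [map_mul, eval_X]
    refine (ha.mul hj).congr_fderiv ?_
    ext v
    fin_cases j <;> simp <;> ring

lemma fderiv_eval (g : Pol ℂ) (z v : Pt) :
    fderiv ℂ (fun x : Pt => eval x g) z v = ∑ i, eval z (pderiv i g) * v i := by
  rw [(hasFDerivAt_eval g z).fderiv]; simp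

lemma dP_eval (g : Pol ℂ) (i : Fin 2) (z : Pt) :
    dP (fun x => eval x g) i z = eval z (pderiv i g) := by
  rw [dP, fderiv_eval]
  fin_cases i <;> simp

lemma fderiv_eq_dP (g : Pt → ℂ) (z v : Pt) : fderiv ℂ g z v = dP g 0 z * v 0 + dP g 1 z * v 1 := by
  have : v = v 0 • Pi.single 0 1 + v 1 • Pi.single 1 1 := by
    funext i; fin_cases i <;> simp
  conv_lhs => rw [this]
  simp [dP, mul_comm]

lemma analyticAt_dP {g : Pt → ℂ} {p : Pt} (h : AnalyticAt ℂ g p) (i : Fin 2) :
    AnalyticAt ℂ (dP g i) p :=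
  ((ContinuousLinearMap.apply ℂ ℂ (Pi.single i 1 : Pt)).analyticAt _).comp h.fderiv

/-! ### Power series -/

section Ser
variable {k : Type} [CommRing k]

lemma pderivS_comm (i j : Fin 2) (a : Ser k) :
    MvPowerSeries.pderiv k i (MvPowerSeries.pderiv k j a) =
      MvPowerSeries.pderiv k j (MvPowerSeries.pderiv k i a) := by
  ext m
  simp only [MvPowerSeries.coeff_pderiv, add_right_comm m (Finsupp.single i 1), Finsupp.add_apply,
    Finsupp.single_apply]
  by_cases h : i = j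
  · subst h; rfl
  · rw [if_neg h, if_neg (Ne.symm h)]; push_cast; ring

lemma actS_eq_wedge (u : Ser k × Ser k) (a : Ser k) : actS u a = wedge (hamS a) u := by
  simp [actS, wedge, hamS]; ring

lemma hamS_add (a b : Ser k) : hamS (a + b) = hamS a + hamS b := by ext1 <;> simp [hamS]; ring

lemma hamS_sub (a b : Ser k) : hamS (a - b) = hamS a - hamS b := by ext1 <;> simp [hamS]; ring

lemma hamS_neg (a : Ser k) : hamS (-a) = -hamS a := by ext1 <;> simp [hamS]

lemma hamS_smul (r : k) (a : Ser k) : hamS (r • a) = r • hamS a := by ext1 <;> simp [hamS]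

lemma hamS_mul (a b : Ser k) : hamS (a * b) = a • hamS b + b • hamS a := by
  ext1 <;> simp [hamS]; ring

lemma hamS_one : hamS (1 : Ser k) = 0 := by ext1 <;> simp [hamS]

lemma hamS_sum {ι : Type} (s : Finset ι) (a : ι → Ser k) :
    hamS (∑ i ∈ s, a i) = ∑ i ∈ s, hamS (a i) := by
  ext1 <;> simp [hamS, Prod.fst_sum, Prod.snd_sum]

lemma dvgS_hamS (a : Ser k) : dvgS (hamS a) = 0 := by simp [dvgS, hamS, pderivS_comm 0 1]

lemma dvgS_smul (c : Ser k) (u : Ser k × Ser k) :
    dvgS (c • u) = c * dvgS u + wedge (hamS c) u := by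
  simp [dvgS, wedge, hamS]; ring

lemma dvgS_smul' (c : k) (u : Ser k × Ser k) : dvgS (c • u) = c • dvgS u := by simp [dvgS]

lemma dvgS_add (u v : Ser k × Ser k) : dvgS (u + v) = dvgS u + dvgS v := by simp [dvgS]; ring

lemma dvgS_sub (u v : Ser k × Ser k) : dvgS (u - v) = dvgS u - dvgS v := by simp [dvgS]; ring

lemma dvgS_neg (u : Ser k × Ser k) : dvgS (-u) = -dvgS u := by simp [dvgS]; ring

lemma dvgS_zero : dvgS (0 : Ser k × Ser k) = 0 := by simp [dvgS]

lemma dvgS_sum {ι : Type} (s : Finset ι) (u : ι → Ser k × Ser k) :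
    dvgS (∑ i ∈ s, u i) = ∑ i ∈ s, dvgS (u i) := by
  simp [dvgS, Prod.fst_sum, Prod.snd_sum, Finset.sum_add_distrib]

lemma coeS_sum {ι : Type} (s : Finset ι) (a : ι → Pol k) :
    ((∑ i ∈ s, a i : Pol k) : Ser k) = ∑ i ∈ s, (a i : Ser k) :=
  map_sum MvPolynomial.coeToMvPowerSeries.ringHom a s

lemma coeS_prod {ι : Type} (s : Finset ι) (a : ι → Pol k) :
    ((∏ i ∈ s, a i : Pol k) : Ser k) = ∏ i ∈ s, (a i : Ser k) :=
  map_prod MvPolynomial.coeToMvPowerSeries.ringHom a s

lemma coeS_sub (a b : Pol k) : ((a - b : Pol k) : Ser k) = a - b :=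
  map_sub MvPolynomial.coeToMvPowerSeries.ringHom a b

lemma coeS_neg (a : Pol k) : ((-a : Pol k) : Ser k) = -a :=
  map_neg MvPolynomial.coeToMvPowerSeries.ringHom a

lemma coeS_smul (r : k) (a : Pol k) : ((r • a : Pol k) : Ser k) = r • (a : Ser k) := by
  ext m; simp

lemma coeP_injective : Function.Injective (coeP : Pol k × Pol k → _) := fun u v h => by
  simp only [coeP, Prod.mk.injEq, MvPolynomial.coe_inj] at h
  exact Prod.ext h.1 h.2

lemma coeP_add (u v : Pol k × Pol k) : coeP (u + v) = coeP u + coeP v := by simp [coeP]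

lemma coeP_sub (u v : Pol k × Pol k) : coeP (u - v) = coeP u - coeP v := by simp [coeP, coeS_sub]

lemma coeP_zero : coeP (0 : Pol k × Pol k) = 0 := by simp [coeP]

lemma coeP_smul (c : Pol k) (u : Pol k × Pol k) : coeP (c • u) = (c : Ser k) • coeP u := by
  simp [coeP]

lemma coeP_smul' (c : k) (u : Pol k × Pol k) : coeP (c • u) = c • coeP u := by
  simp [coeP]

lemma coeP_sum {ι : Type} (s : Finset ι) (u : ι → Pol k × Pol k) :
    coeP (∑ i ∈ s, u i) = ∑ i ∈ s, coeP (u i) := by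
  ext1 <;> simp [coeP, Prod.fst_sum, Prod.snd_sum, coeS_sum]

lemma coeP_ham (a : Pol k) : coeP (ham a) = hamS (a : Ser k) := by
  simp [coeP, ham, hamS, MvPowerSeries.pderiv_coe, coeS_neg]

lemma coe_dvg (u : Pol k × Pol k) : ((dvg u : Pol k) : Ser k) = dvgS (coeP u) := by
  simp [coeP, dvg, dvgS, MvPowerSeries.pderiv_coe]

lemma coe_wedge (u v : Pol k × Pol k) :
    ((wedge u v : Pol k) : Ser k) = wedge (coeP u) (coeP v) := by
  simp [coeP, wedge, coeS_sub]

lemma coe_act (u : Pol k × Pol k) (a : Pol k) :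
    ((act u a : Pol k) : Ser k) = actS (coeP u) (a : Ser k) := by
  simp [coeP, act, actS, MvPowerSeries.pderiv_coe]

end Ser

namespace Lines
variable {k G I : Type} [Field k] (L : Lines k G I)

lemma l_mul_t (i : I) : (L.l i : Ser k) * L.t i = 1 :=
  MvPowerSeries.mul_inv_cancel _ (by simp [l])

lemma ham_l (i : I) : ham (L.l i) = (C (L.b i), -C (L.a i)) := by simp [ham, l]

lemma hamS_l (i : I) :
    hamS (L.l i : Ser k) = (MvPowerSeries.C (L.b i), -MvPowerSeries.C (L.a i)) := by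
  rw [← coeP_ham, ham_l]; simp [coeP, coeS_neg]

lemma hamS_t (i : I) : hamS (L.t i) = -(L.t i ^ 2) • hamS (L.l i : Ser k) := by
  have h := congrArg hamS (L.l_mul_t i)
  rw [hamS_mul, hamS_one] at h
  have e : hamS (L.t i) = L.t i • ((L.l i : Ser k) • hamS (L.t i)) := by
    rw [smul_smul, mul_comm, L.l_mul_t, one_smul]
  rw [e, eq_neg_of_add_eq_zero_left h, smul_neg, smul_smul, neg_smul, pow_two]

lemma wedge_ham_l (i j : I) : wedge (ham (L.l i)) (ham (L.l j)) = C (L.br i j) := by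
  simp [ham_l, wedge, br]; ring

lemma wedge_hamS_l (i j : I) :
    wedge (hamS (L.l i : Ser k)) (hamS (L.l j : Ser k)) = MvPowerSeries.C (L.br i j) := by
  simp [hamS_l, wedge, br]; ring

lemma br_self (i : I) : L.br i i = 0 := by simp [br]

lemma br_comm (i j : I) : L.br i j = -L.br j i := by simp [br]

lemma br_rel (i j m : I) :
    C (L.br j m) * L.l i + C (L.br m i) * L.l j + C (L.br i j) * L.l m = C (L.D i j m) := by
  simp only [l, br, D, map_add, map_sub, map_mul]; ring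

lemma coeff_zero_l (i : I) : coeff 0 (L.l i) = 1 := by simp [l]

lemma totalDegree_l_le (i : I) : (L.l i).totalDegree ≤ 1 := by
  have h : ∀ (c : k) (j : Fin 2), (C c * X j : Pol k).totalDegree ≤ 1 :=
    fun c j => (isHomogeneous_C_mul_X c j).totalDegree_le
  exact (totalDegree_add _ _).trans
    (max_le ((totalDegree_add _ _).trans (max_le (by simp) (h _ _))) (h _ _))

end Lines

end CenLoc
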