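import Pool.Agent.P.MP_2862dc_ag.Stmt

/-!
Internal definitions.  A pair `u = (P, Q)` stands both for the 1-form `P dy - Q dx` and for the
vector field `P ∂x + Q ∂y`.  Then `ham a` is `da`, `dvg u` is `du / (dx ∧ dy)`, `wedge u v` is
`u ∧ v / (dx ∧ dy)` and `act u a = wedge (ham a) u` is the derivative of `a` along the field.
-/

namespace CenLoc

open MvPolynomial Filter Topology

noncomputable section

/-! ### Polynomial calculus -/

section Alg
variable {R : Type} [CommRing R]

/-- The maximal ideal of the origin. -/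
abbrev mI (R : Type) [CommRing R] : Ideal (Pol R) := idealOfVars (Fin 2) R

def wedge {S : Type} [CommRing S] (u v : S × S) : S := u.1 * v.2 - u.2 * v.1

def ham (a : Pol R) : Pol R × Pol R := (pderiv 1 a, -pderiv 0 a)

def dvg (u : Pol R × Pol R) : Pol R := pderiv 0 u.1 + pderiv 1 u.2

def act (u : Pol R × Pol R) (a : Pol R) : Pol R := u.1 * pderiv 0 a + u.2 * pderiv 1 a

/-- Jacobian determinant of the pair. -/
def jacP (u : Pol R × Pol R) : Pol R := pderiv 0 u.1 * pderiv 1 u.2 - pderiv 1 u.1 * pderiv 0 u.2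

/-- Jacobian determinant at the origin. -/
def jac (u : Pol R × Pol R) : R := coeff 0 (jacP u)

/-- Recentering at `p`: `tr p g (z) = g (z + p)`. -/
def tr (p : Fin 2 → R) : Pol R →ₐ[R] Pol R := aeval fun i => X i + C (p i)

def trP (p : Fin 2 → R) (u : Pol R × Pol R) : Pol R × Pol R := (tr p u.1, tr p u.2)

def mapP {R' : Type} [CommRing R'] (φ : R →+* R') (u : Pol R × Pol R) : Pol R' × Pol R' :=
  (map φ u.1, map φ u.2)

/-- Coefficient vector of a pair. -/
def coords (d : ℕ) (u : Pol R × Pol R) : Fin 2 × Mon d → R :=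
  fun w => coeff w.2.1 (if w.1 = 0 then u.1 else u.2)

/-- Both components have degree at most `d`. -/
def DegLE (d : ℕ) (u : Pol R × Pol R) : Prop := u.1.totalDegree ≤ d ∧ u.2.totalDegree ≤ d

/-- Both components lie in the `N`-th power of the maximal ideal. -/
def OrdP (N : ℕ) (u : Pol R × Pol R) : Prop := u.1 ∈ mI R ^ N ∧ u.2 ∈ mI R ^ N

/-- Coefficients of degree at most `N`. -/
def jet (N : ℕ) (g : Pol R) : Mon N → R := fun m => coeff m.1 g

lemma polyOf_add {e : ℕ} (c c' : Mon e → R) : polyOf (c + c') = polyOf c + polyOf c' := by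
  simp [polyOf, Finset.sum_add_distrib]

lemma polyOf_smul {e : ℕ} (r : R) (c : Mon e → R) : polyOf (r • c) = r • polyOf c := by
  simp [polyOf, Finset.smul_sum, smul_monomial]

/-- The derivative along `u` acting on jets. -/
def Lmap (N : ℕ) (u : Pol R × Pol R) : (Mon N → R) →ₗ[R] (Mon N → R) where
  toFun c := jet N (act u (polyOf c))
  map_add' c c' := by
    ext m; simp [jet, act, polyOf_add, mul_add]; ring
  map_smul' r c := by
    ext m; simp [jet, act, polyOf_smul, mul_add]

variable {G : Type} [Fintype G] [DecidableEq G]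

/-- `f₁ ⋯ f_s df_g / f_g`. -/
def lg (f : G → Pol R) (g : G) : Pol R × Pol R := (∏ j ∈ Finset.univ.erase g, f j) • ham (f g)

/-- The variation of `om f lam` when `f g` moves in the direction `h`. -/
def tv (f : G → Pol R) (lam : G → R) (g : G) (h : Pol R) : Pol R × Pol R :=
  (C (lam g) * ∏ j ∈ Finset.univ.erase g, f j) • ham h +
    h • ∑ j ∈ Finset.univ.erase g,
      (C (lam j) * ∏ m ∈ (Finset.univ.erase g).erase j, f m) • ham (f j)

lemma ham_add (a b : Pol R) : ham (a + b) = ham a + ham b := by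
  ext1 <;> simp [ham]; ring

lemma ham_smul (r : R) (a : Pol R) : ham (r • a) = r • ham a := by
  ext1 <;> simp [ham]

lemma tv_add (f : G → Pol R) (lam : G → R) (g : G) (h h' : Pol R) :
    tv f lam g (h + h') = tv f lam g h + tv f lam g h' := by
  simp only [tv, ham_add, smul_add, add_smul]; abel

lemma tv_smul (f : G → Pol R) (lam : G → R) (g : G) (r : R) (h : Pol R) :
    tv f lam g (r • h) = r • tv f lam g h := by
  simp only [tv, ham_smul, smul_add, smul_assoc]; rw [smul_comm]

lemma tv_zero (f : G → Pol R) (lam : G → R) (g : G) : tv f lam g 0 = 0 := by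
  have := tv_smul f lam g 0 0
  simpa using this

/-- Formal Melnikov condition modulo order `N` at the origin:
`u / F = da + B ω` up to order `N`, where `F = ∏ f g` and `ω = om f lam`. -/
def InT (N : ℕ) (f : G → Pol R) (lam : G → R) : Submodule R (Pol R × Pol R) where
  carrier := {u | ∃ a, wedge u (om f lam) - (∏ g, f g) * act (om f lam) a ∈ mI R ^ N}
  add_mem' := by
    rintro u v ⟨a, ha⟩ ⟨b, hb⟩
    refine ⟨a + b, ?_⟩
    convert Ideal.add_mem _ ha hb using 1
    simp [wedge, act]; ring
  zero_mem' := ⟨0, by simp [wedge, act]⟩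
  smul_mem' := by
    rintro r u ⟨a, ha⟩
    refine ⟨r • a, ?_⟩
    convert Ideal.mul_mem_left _ (C r) ha using 1
    simp [wedge, act, smul_eq_C_mul]; ring

/-- Tangent vectors to the logarithmic family at `(f, lam)`. -/
def InTL (dd : G → ℕ) (f : G → Pol R) (lam : G → R) : Submodule R (Pol R × Pol R) where
  carrier := {u | ∃ (h : G → Pol R) (μ : G → R), (∀ g, (h g).totalDegree ≤ dd g) ∧
    u = ∑ g, tv f lam g (h g) + ∑ g, μ g • lg f g}
  add_mem' := by
    rintro u v ⟨h, μ, hh, rfl⟩ ⟨h', μ', hh', rfl⟩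
    refine ⟨h + h', μ + μ', fun g => (totalDegree_add _ _).trans (max_le (hh g) (hh' g)), ?_⟩
    simp only [Pi.add_apply, tv_add, add_smul, Finset.sum_add_distrib]; abel
  zero_mem' := ⟨0, 0, by simp, by simp [tv_zero]⟩
  smul_mem' := by
    rintro r u ⟨h, μ, hh, rfl⟩
    refine ⟨r • h, r • μ, fun g => (totalDegree_smul_le _ _).trans (hh g), ?_⟩
    simp only [Pi.smul_apply, tv_smul, smul_add, Finset.smul_sum, smul_assoc]

/-- `η ↦ trP p (form η)` as a linear map. -/
def formAt (d : ℕ) (p : Fin 2 → R) : (Fin 2 × Mon d → R) →ₗ[R] Pol R × Pol R where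
  toFun η := trP p (form η)
  map_add' η η' := by
    have h : ∀ i : Fin 2, (fun m => (η + η') (i, m)) = (fun m => η (i, m)) + fun m => η' (i, m) :=
      fun i => rfl
    ext1 <;> simp only [trP, form, h, polyOf_add, map_add, Prod.fst_add, Prod.snd_add]
  map_smul' r η := by
    have h : ∀ i : Fin 2, (fun m => (r • η) (i, m)) = r • fun m => η (i, m) := fun i => rfl
    ext1 <;> simp only [trP, form, h, polyOf_smul, map_smul, Prod.smul_fst, Prod.smul_snd,
      RingHom.id_apply]

/-- Forms of degree at most `d` satisfying the formal condition at `p`; here `f` is the data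
recentered at `p`. -/
def TN (d N : ℕ) (f : G → Pol R) (lam : G → R) (p : Fin 2 → R) :
    Submodule R (Fin 2 × Mon d → R) := (InT N f lam).comap (formAt d p)

def TL (d : ℕ) (dd : G → ℕ) (f : G → Pol R) (lam : G → R) (p : Fin 2 → R) :
    Submodule R (Fin 2 × Mon d → R) := (InTL dd f lam).comap (formAt d p)

/-- Normalised data: `f g (0) = 1` and the origin is a critical point of `∑ lam g log (f g)`. -/
structure Nrm (dd : G → ℕ) (f : G → Pol R) (lam : G → R) : Prop where
  deg : ∀ g, (f g).totalDegree ≤ dd g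
  one : ∀ g, coeff 0 (f g) = 1
  crit : ∀ i : Fin 2, ∑ g, lam g * coeff (Finsupp.single i 1) (f g) = 0

end Alg

/-! ### Ring homomorphisms with a derivation -/

/-- A ring homomorphism `c0` with a `c0`-derivation `c1`. -/
structure Der (R k : Type) [CommRing R] [CommRing k] where
  c0 : R →+* k
  c1 : R →+ k
  leib : ∀ x y, c1 (x * y) = c0 x * c1 y + c1 x * c0 y

section Der
variable {R k : Type} [CommRing R] [CommRing k]

/-- Coefficientwise application of `c1`. -/
def Der.p1 (D : Der R k) (g : Pol R) : Pol k := ∑ m ∈ g.support, monomial m (D.c1 (coeff m g))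

def Der.p1P (D : Der R k) (u : Pol R × Pol R) : Pol k × Pol k := (D.p1 u.1, D.p1 u.2)

/-- Value at `τ` and derivative at `τ` in the direction `v`. -/
def Der.pt {κ : Type} [Fintype κ] [Algebra ℂ k] (τ v : κ → k) : Der (MvPolynomial κ ℂ) k where
  c0 := (aeval τ : MvPolynomial κ ℂ →ₐ[ℂ] k).toRingHom
  c1 :=
    { toFun := fun Φ => ∑ u, aeval τ (pderiv u Φ) * v u
      map_zero' := by simp
      map_add' := fun a b => by simp [add_mul, Finset.sum_add_distrib] }
  leib x y := by
    simp only [AddMonoidHom.coe_mk, ZeroHom.coe_mk, Derivation.leibniz, smul_eq_mul, map_add,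
      map_mul, AlgHom.toRingHom_eq_coe, RingHom.coe_coe, Finset.mul_sum, Finset.sum_mul,
      ← Finset.sum_add_distrib]
    exact Finset.sum_congr rfl fun u _ => by ring

/-- The coefficients of `1` and `ε` of a polynomial in `ε`. -/
def Der.eps (k : Type) [CommRing k] : Der (Polynomial k) k where
  c0 := Polynomial.constantCoeff
  c1 := (Polynomial.lcoeff k 1).toAddMonoidHom
  leib x y := by
    simp [Polynomial.coeff_mul, Finset.Nat.antidiagonal_succ]

/-- Differential at `τ` of a polynomial map. -/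
def dmap {ι κ : Type} [Fintype κ] [Algebra ℂ k] (θ : ι → MvPolynomial κ ℂ) (τ : κ → k) :
    (κ → k) →ₗ[k] (ι → k) :=
  Matrix.mulVecLin (Matrix.of fun i u => aeval τ (pderiv u (θ i)))

end Der

/-! ### The affine chart of the space of pairs (logarithmic form, critical point) -/

section Chart
variable {R : Type} [CommRing R] {G : Type} [Fintype G] [DecidableEq G]

/-- Index set of the chart. -/
abbrev Idx (dd : G → ℕ) : Type := Σ g : G, Mon (dd g)

variable {dd : G → ℕ}

def yext (τ : Idx dd → R) (g : G) (m : Fin 2 →₀ ℕ) : R :=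
  if h : m.degree ≤ dd g then τ ⟨g, ⟨m, h⟩⟩ else 0

/-- The marked point. -/
def yp (g0 : G) (τ : Idx dd → R) : Fin 2 → R := fun i => yext τ g0 (Finsupp.single i 1)

def ynu (g0 : G) (τ : Idx dd → R) (g : G) : R := if g = g0 then 1 else yext τ g 0

/-- The residues. -/
def ylam (g0 : G) (τ : Idx dd → R) (g : G) : R := yext τ g0 0 * ynu g0 τ g

def ycf (g0 : G) (τ : Idx dd → R) (g : G) (m : Fin 2 →₀ ℕ) : R :=
  if m = 0 then 1 else
    if g = g0 ∧ m.degree = 1 then -∑ j ∈ Finset.univ.erase g0, ynu g0 τ j * yext τ j m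
    else yext τ g m

/-- The polynomials recentered at the marked point. -/
def yf (g0 : G) (τ : Idx dd → R) (g : G) : Pol R :=
  polyOf fun m : Mon (dd g) => ycf g0 τ g m.1

/-- The polynomials in the original coordinates. -/
def yF (g0 : G) (τ : Idx dd → R) (g : G) : Pol R := tr (-yp g0 τ) (yf g0 τ g)

/-- Coefficient vector of the logarithmic form. -/
def ypi (d : ℕ) (g0 : G) (τ : Idx dd → R) : Fin 2 × Mon d → R :=
  coords d (om (yF g0 τ) (ylam g0 τ))

/-- The parametrisation as a polynomial map. -/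
def piU (d : ℕ) (dd : G → ℕ) (g0 : G) : Fin 2 × Mon d → MvPolynomial (Idx dd) ℂ :=
  ypi d g0 X

/-- The parametrisation of pairs as a polynomial map. -/
def piT (d : ℕ) (dd : G → ℕ) (g0 : G) : (Fin 2 × Mon d) ⊕ Fin 2 → MvPolynomial (Idx dd) ℂ :=
  Sum.elim (piU d dd g0) (yp g0 X)

end Chart

/-- Pairs (form with a center, center). -/
def cenPairs (d : ℕ) : Set ((Fin 2 × Mon d) ⊕ Fin 2 → ℂ) :=
  {z | IsRelPrime (form (z ∘ Sum.inl)).1 (form (z ∘ Sum.inl)).2 ∧
    max (form (z ∘ Sum.inl)).1.totalDegree (form (z ∘ Sum.inl)).2.totalDegree = d ∧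
    IsCenter (form (z ∘ Sum.inl)) (z ∘ Sum.inr)}

/-- The top degree parts admit no syzygy of degree `d - 1`. -/
def SylInj {k : Type} [CommRing k] (d : ℕ) (u : Pol k × Pol k) : Prop :=
  ∀ A B : Pol k, A.IsHomogeneous (d - 1) → B.IsHomogeneous (d - 1) →
    A * homogeneousComponent d u.1 + B * homogeneousComponent d u.2 = 0 → A = 0 ∧ B = 0

/-- Bad data: to be excluded by a polynomial condition on the form. -/
def Bad {G : Type} [Fintype G] [DecidableEq G] (g0 : G) (f : G → Pol ℂ) (lam : G → ℂ) : Prop :=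
  lam g0 = 0 ∨ ∃ p : Pt, eval p (om f lam).1 = 0 ∧ eval p (om f lam).2 = 0 ∧
    eval p (dvg (om f lam)) = 0 ∧ eval p (∏ g, f g) = 0

/-- A set of data on which the numbers (chosen coefficients of the form, values of the `f g` at
`q`, coordinates of `q`) satisfy a nontrivial polynomial relation. -/
def Thin {G : Type} [Fintype G] [DecidableEq G] (d : ℕ) (dd : G → ℕ)
    (Ω : Set ((G → Pol ℂ) × (G → ℂ))) : Prop :=
  ∀ e : Idx dd → Fin 2 × Mon d, ∃ A : MvPolynomial (Idx dd ⊕ G ⊕ Fin 2) ℂ, A ≠ 0 ∧
    ∀ x ∈ Ω, (∀ g, (x.1 g).totalDegree ≤ dd g) → ∀ q : Pt,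
      eval (Sum.elim (fun u => coords d (om x.1 x.2) (e u))
        (Sum.elim (fun g => eval q (x.1 g)) q)) A = 0

/-! ### Formal power series calculus -/

abbrev Ser (k : Type) [CommRing k] : Type := MvPowerSeries (Fin 2) k

section Ser
variable {k : Type} [CommRing k]

def hamS (a : Ser k) : Ser k × Ser k := (MvPowerSeries.pderiv k 1 a, -MvPowerSeries.pderiv k 0 a)

def dvgS (u : Ser k × Ser k) : Ser k := MvPowerSeries.pderiv k 0 u.1 + MvPowerSeries.pderiv k 1 u.2

def actS (u : Ser k × Ser k) (a : Ser k) : Ser k :=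
  u.1 * MvPowerSeries.pderiv k 0 a + u.2 * MvPowerSeries.pderiv k 1 a

def coeP (u : Pol k × Pol k) : Ser k × Ser k := ((u.1 : Ser k), (u.2 : Ser k))

/-- `ρ(z)` is `(d + z h ∧) b` for a Laurent series `b` in `1 / z` with coefficients 1-forms. -/
def Null (h : Ser k × Ser k) (ρ : Polynomial (Ser k)) : Prop :=
  ∃ b : ℤ → Ser k × Ser k, (∃ m : ℤ, ∀ j, m < j → b j = 0) ∧
    ∀ j : ℤ, (if 0 ≤ j then ρ.coeff j.toNat else 0) = dvgS (b j) + wedge h (b (j - 1))

/-- A closed form with a nondegenerate zero at the origin. -/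
structure Morse (h : Ser k × Ser k) : Prop where
  closed : dvgS h = 0
  c1 : MvPowerSeries.constantCoeff h.1 = 0
  c2 : MvPowerSeries.constantCoeff h.2 = 0
  kos : ∀ β : Ser k × Ser k, wedge h β = 0 → ∃ c : Ser k, β = c • h

/-- Coefficientwise application of a map. -/
def serMap (δ : k → k) (a : Ser k) : Ser k := fun m => δ (a m)

end Ser

/-! ### Weighted line arrangements -/

/-- Lines `1 + a i x + b i y`, grouped by `grp`, the lines of the group `g` having weight `lam g`. -/
structure Lines (k G I : Type) where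
  grp : I → G
  a : I → k
  b : I → k
  lam : G → k

namespace Lines
variable {k G I : Type} [Field k] [Fintype G] [DecidableEq G] [Fintype I] [DecidableEq I]
  (L : Lines k G I)

def mu (i : I) : k := L.lam (L.grp i)

def l (i : I) : Pol k := 1 + C (L.a i) * X 0 + C (L.b i) * X 1

def br (i j : I) : k := L.a i * L.b j - L.a j * L.b i

def D (i j m : I) : k := L.br j m + L.br m i + L.br i j

/-- The lines of the group `g`. -/
def fib (g : G) : Finset I := Finset.univ.filter fun i => L.grp i = g

def dd (g : G) : ℕ := (L.fib g).card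

def f (g : G) : Pol k := ∏ i ∈ L.fib g, L.l i

/-- Inverse of the line as a power series. -/
def t (i : I) : Ser k := (L.l i : Ser k)⁻¹

/-- The logarithmic form with constant coefficients `c`. -/
def zeta (c : I → k) : Ser k × Ser k := ∑ i, (c i • L.t i) • hamS (L.l i : Ser k)

/-- The closed form `∑ mu i dl_i / l_i`. -/
def h : Ser k × Ser k := L.zeta L.mu

/-- `dl_i ∧ dl_j / (l_i l_j)`. -/
def e (i j : I) : Ser k := L.br i j • (L.t i * L.t j)

/-- Logarithmic 2-forms with constant coefficients. -/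
def E : Submodule k (Ser k) := Submodule.span k {x | ∃ i j, i ≠ j ∧ x = L.t i * L.t j}

def A1 : Submodule k (Ser k) :=
  Submodule.span k {x | (∃ i, x = L.t i) ∨ ∃ i j, i ≠ j ∧ x = L.t i * L.t j}

def B' (j : I) : Submodule k (Ser k × Ser k) :=
  Submodule.span k {x | ∃ m, m ≠ j ∧ x = (L.t j * L.t m) • hamS (L.l m : Ser k)}

def B (j : I) : Submodule k (Ser k × Ser k) :=
  L.B' j ⊔ Submodule.span k {(L.t j, 0), (0, L.t j)}

structure Gen : Prop where
  br_ne : ∀ i j, i ≠ j → L.br i j ≠ 0
  D_ne : ∀ i j m, i ≠ j → j ≠ m → i ≠ m → L.D i j m ≠ 0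
  crit_a : ∑ i, L.mu i * L.a i = 0
  crit_b : ∑ i, L.mu i * L.b i = 0
  hess : (∑ i, L.mu i * L.a i ^ 2) * (∑ i, L.mu i * L.b i ^ 2) -
    (∑ i, L.mu i * L.a i * L.b i) ^ 2 ≠ 0
  indep : ∀ n : G → ℤ, ∑ g, (n g : k) * L.lam g = 0 → ∀ g, n g = 0
  surj : Function.Surjective L.grp
  two : ∃ g g' : G, g ≠ g'
  three : 3 ≤ Fintype.card I

/-- Coefficient of the Gauss-Manin connection along a derivation scaling `(a i, b i)` by `s i`;
it is zero unless `i, j, m` are distinct. -/
def theta (s : I → k) (i j m : I) : k :=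
  -(s i * L.br j m + s j * L.br m i + s m * L.br i j) / L.D i j m

/-- A derivation of the ground field moving the lines parallel to themselves. -/
structure Mov (δ : Derivation ℤ k k) (s : I → k) : Prop where
  da : ∀ i, δ (L.a i) = s i * L.a i
  db : ∀ i, δ (L.b i) = s i * L.b i
  dlam : ∀ g, δ (L.lam g) = 0

/-- For each triple there is a derivation detecting the residue along the concurrency divisor. -/
def Res : Prop :=
  ∀ x y w : I, x ≠ y → y ≠ w → x ≠ w → ∃ (δ : Derivation ℤ k k) (s : I → k), L.Mov δ s ∧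
    ∀ (κ : k) (r : I → I → I → k), (∀ i j m, δ (r i j m) = 0) →
      δ κ = ∑ i, ∑ j, ∑ m, r i j m * L.theta s i j m →
        r x y w + r y w x + r w x y + r x w y + r w y x + r y x w = 0

/-- The formal local class is injective on logarithmic 2-forms modulo `h ∧ (log 1-forms)`. -/
def Inj : Prop :=
  ∀ ρ : Polynomial (Ser k), (∀ j, ρ.coeff j ∈ L.E) → Null L.h ρ →
    ∀ z0 : k, ∃ c : I → k, ρ.eval (MvPowerSeries.C z0) = wedge L.h (L.zeta c)

/-- The direction in which the curve of the group `g` is smoothed; `j g` is a line of `g`. -/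
def pert (j : G → I) (g : G) : Pol k :=
  ∑ i ∈ (L.fib g).erase (j g), (1 - L.l i) * (1 - L.l (j g)) *
    ∏ m ∈ ((L.fib g).erase (j g)).erase i, L.l m

/-- `pert j g / f g` as a power series. -/
def pertS (j : G → I) (g : G) : Ser k :=
  ∑ i ∈ (L.fib g).erase (j g), (L.t i - 1) * (L.t (j g) - 1)

/-- The smoothed curves over `k[ε]`. -/
def fE (j : G → I) (g : G) : Pol (Polynomial k) :=
  map Polynomial.C (L.f g) + C Polynomial.X * map Polynomial.C (L.pert j g)

def lamE (g : G) : Polynomial k := Polynomial.C (L.lam g)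

/-- The 2-form with coefficient matrix `v`, depending polynomially on `z`. -/
def rho (v : I × I → Polynomial k) : Polynomial (Ser k) :=
  ∑ p : I × I, (v p).map (algebraMap k (Ser k)) * Polynomial.C (L.e p.1 p.2)

end Lines

/-! ### Coefficient matrices of logarithmic 2-forms -/

section Mat
variable {k I : Type} [Field k] [DecidableEq I]

def xi (mu : I → k) (x y w : I) (v : I × I → k) : k :=
  mu x * (v (y, w) - v (w, y)) + mu y * (v (w, x) - v (x, w)) + mu w * (v (x, y) - v (y, x))

def tri (x y w : I) : I × I → k :=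
  Pi.single (x, y) 1 + Pi.single (y, w) 1 + Pi.single (w, x) 1

/-- The connection `δ + z Ω` on coefficient matrices. -/
def conn [Fintype I] (δ : Derivation ℤ k k) (mu : I → k) (θ : I → I → I → k)
    (v : I × I → Polynomial k) : I × I → Polynomial k := fun p =>
  (∑ n ∈ (v p).support, Polynomial.monomial n (δ ((v p).coeff n))) +
    Polynomial.X * ∑ i, ∑ j, ∑ m, Polynomial.C (mu i * θ i j m * tri (k := k) i j m p) * v (j, m)

end Mat

end

end CenLoc
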