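import Mathlib

/-!
Definitions used in the statement on tangent spaces of the center locus.
A polynomial 1-form `P dy - Q dx` of degree at most `d` is given by its coefficient vector.
-/

namespace CenLoc

open MvPolynomial Filter Topology

/-- Polynomials in the two variables `x = X 0`, `y = X 1`. -/
abbrev Pol (R : Type) [CommRing R] : Type := MvPolynomial (Fin 2) R

/-- Points of the complex plane `ℂ²`. -/
abbrev Pt : Type := Fin 2 → ℂ

/-- Exponents of the monomials of degree at most `e`. -/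
abbrev Mon (e : ℕ) : Type := {m : Fin 2 →₀ ℕ // m.degree ≤ e}

noncomputable instance monFintype (e : ℕ) : Fintype (Mon e) :=
  (Finsupp.finite_of_degree_le (σ := Fin 2) e).fintype

/-- The polynomial of degree at most `e` with the given coefficients. -/
noncomputable def polyOf {R : Type} [CommRing R] {e : ℕ} (c : Mon e → R) : Pol R :=
  ∑ m : Mon e, monomial m.1 (c m)

/-- The pair `(P, Q)` with the given coefficient vector; it stands for `P dy - Q dx`. -/
noncomputable def form {R : Type} [CommRing R] {d : ℕ} (η : Fin 2 × Mon d → R) : Pol R × Pol R :=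
  (polyOf fun m => η (0, m), polyOf fun m => η (1, m))

/-- The pair `(P, Q)` with `P dy - Q dx = f₁ ⋯ f_s ∑ λ_i df_i / f_i`. -/
noncomputable def om {R : Type} [CommRing R] {G : Type} [Fintype G] [DecidableEq G]
    (f : G → Pol R) (lam : G → R) : Pol R × Pol R :=
  (∑ i, C (lam i) * (∏ j ∈ Finset.univ.erase i, f j) * pderiv 1 (f i),
    -∑ i, C (lam i) * (∏ j ∈ Finset.univ.erase i, f j) * pderiv 0 (f i))

/-- Partial derivative of a function on `ℂ²`. -/
noncomputable def dP (g : Pt → ℂ) (i : Fin 2) (z : Pt) : ℂ := fderiv ℂ g z (Pi.single i 1)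

/-- The function `x̃² + ỹ²` of local coordinates `ψ = (x̃, ỹ)`. -/
def sqs (ψ : Pt → Pt) (z : Pt) : ℂ := ψ z 0 ^ 2 + ψ z 1 ^ 2

/-- `p` is a center of `ω = P dy - Q dx`, `u = (P, Q)`: a reduced common zero of `P, Q` with local
holomorphic coordinates `ψ` vanishing at `p` such that `ω ∧ d(x̃² + ỹ²) = 0` near `p`. -/
def IsCenter (u : Pol ℂ × Pol ℂ) (p : Pt) : Prop :=
  eval p u.1 = 0 ∧ eval p u.2 = 0 ∧
  eval p (pderiv 0 u.1 * pderiv 1 u.2 - pderiv 1 u.1 * pderiv 0 u.2) ≠ 0 ∧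
  ∃ ψ : Pt → Pt, AnalyticAt ℂ ψ p ∧ ψ p = 0 ∧ Function.Bijective (fderiv ℂ ψ p) ∧
    ∀ᶠ z in 𝓝 p, eval z u.1 * dP (sqs ψ) 0 z + eval z u.2 * dP (sqs ψ) 1 z = 0

/-- The affine cone over `M(d)`: the closure of the set of forms with `P, Q` coprime,
`max (deg P) (deg Q) = d` and at least one center. -/
def centerLocus (d : ℕ) : Set (Fin 2 × Mon d → ℂ) :=
  closure {ω | IsRelPrime (form ω).1 (form ω).2 ∧
    max (form ω).1.totalDegree (form ω).2.totalDegree = d ∧ ∃ p, IsCenter (form ω) p}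

/-- The affine cone over `L(d₁, …, d_s)`: the nonzero logarithmic forms with `deg f_i ≤ d_i`. -/
def logLocus (d : ℕ) {s : ℕ} (dd : Fin s → ℕ) : Set (Fin 2 × Mon d → ℂ) :=
  {ω | ω ≠ 0 ∧ ∃ (f : Fin s → Pol ℂ) (lam : Fin s → ℂ),
    (∀ i, (f i).totalDegree ≤ dd i) ∧ form ω = om f lam}

/-- Zariski tangent space at `y` of (the Zariski closure of) a subset `Z` of an affine space. -/
def tangent {ι : Type} [Fintype ι] (Z : Set (ι → ℂ)) (y : ι → ℂ) : Set (ι → ℂ) :=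
  {v | ∀ Φ : MvPolynomial ι ℂ, (∀ z ∈ Z, eval z Φ = 0) → ∑ i, eval y (pderiv i Φ) * v i = 0}

/-- The data used to define the Melnikov integral at `p`: holomorphic coordinates `ψ` vanishing
at `p`, their local inverse `χ`, and a holomorphic `s` with `ω = s d(x̃² + ỹ²)` near `p`. -/
structure Chart (u : Pol ℂ × Pol ℂ) (p : Pt) where
  ψ : Pt → Pt
  χ : Pt → Pt
  s : Pt → ℂ
  ψ_an : AnalyticAt ℂ ψ p
  χ_an : AnalyticAt ℂ χ 0
  s_an : AnalyticAt ℂ s p
  ψ_p : ψ p = 0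
  χ_zero : χ 0 = p
  left : ∀ᶠ z in 𝓝 p, χ (ψ z) = z
  right : ∀ᶠ w in 𝓝 0, ψ (χ w) = w
  fac : ∀ᶠ z in 𝓝 p, eval z u.1 = s z * dP (sqs ψ) 1 z ∧ -eval z u.2 = s z * dP (sqs ψ) 0 z

/-- The vanishing cycle in the leaf `x̃² + ỹ² = r²`. -/
noncomputable def Chart.cyc {u : Pol ℂ × Pol ℂ} {p : Pt} (c : Chart u p) (r : ℂ) (θ : ℝ) : Pt :=
  c.χ ![r * Real.cos θ, r * Real.sin θ]

/-- The integral of `(P₁ dy - Q₁ dx) / s` over the vanishing cycle, `v = (P₁, Q₁)`. -/
noncomputable def Chart.mel {u : Pol ℂ × Pol ℂ} {p : Pt} (c : Chart u p) (v : Pol ℂ × Pol ℂ)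
    (r : ℂ) : ℂ :=
  ∫ θ in (0 : ℝ)..2 * Real.pi,
    (eval (c.cyc r θ) v.1 * deriv (fun t => c.cyc r t 1) θ -
      eval (c.cyc r θ) v.2 * deriv (fun t => c.cyc r t 0) θ) / c.s (c.cyc r θ)

/-- The forms of degree at most `d` whose first Melnikov integral vanishes on all small cycles. -/
def Chart.Tstar {u : Pol ℂ × Pol ℂ} {p : Pt} (c : Chart u p) (d : ℕ) : Set (Fin 2 × Mon d → ℂ) :=
  {η | ∀ᶠ r in 𝓝 (0 : ℂ), c.mel (form η) r = 0}

end CenLoc
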