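import Pool.Agent.P.MP_2862dc_ag.Defs

/-!
Intermediate statements.  Each one is proved in its own file from the statements it depends on.
-/

namespace CenLoc

open MvPolynomial Filter Topology Asymptotics

/-! ### Analysis -/

def StJET : Prop := ∀ (g : Pt → ℂ) (p : Pt) (N : ℕ), AnalyticAt ℂ g p →
  ∃ T : Pol ℂ, (fun z => g z - eval (z - p) T) =O[𝓝 p] fun z => ‖z - p‖ ^ N

def StDERO : Prop := ∀ (g : Pt → ℂ) (p : Pt) (N : ℕ) (i : Fin 2), AnalyticAt ℂ g p →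
  (g =O[𝓝 p] fun z => ‖z - p‖ ^ (N + 1)) → (dP g i) =O[𝓝 p] fun z => ‖z - p‖ ^ N

def StPOLYO : Prop := ∀ (T : Pol ℂ) (p : Pt) (N : ℕ),
  ((fun z => eval (z - p) T) =O[𝓝 p] fun z => ‖z - p‖ ^ N) ↔ T ∈ mI ℂ ^ N

/-- Jet of the first integral at a center. -/
def StCJET : Prop := ∀ (u : Pol ℂ × Pol ℂ) (p : Pt), IsCenter u p →
  eval p (dvg u) = 0 ∧
  ∀ N, ∃ f : Pol ℂ, f ∈ mI ℂ ^ 2 ∧ f ∉ mI ℂ ^ 3 ∧ act (trP p u) f ∈ mI ℂ ^ N

/-- Morse lemma for `∑ lam g log (f g)`. -/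
def StMORSE : Prop := ∀ (G : Type) [Fintype G] [DecidableEq G] (f : G → Pol ℂ) (lam : G → ℂ)
  (p : Pt), (∀ g, eval p (f g) = 1) → eval p (om f lam).1 = 0 → eval p (om f lam).2 = 0 →
  eval p (jacP (om f lam)) ≠ 0 → IsCenter (om f lam) p ∧ Nonempty (Chart (om f lam) p)

def StSP : Prop := ∀ (u : Pol ℂ × Pol ℂ) (p : Pt) (c : Chart u p),
  eval p (jacP u) ≠ 0 → c.s p ≠ 0

/-- The rotation field of the chart is a multiple of the vector field. -/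
def StXI : Prop := ∀ (u : Pol ℂ × Pol ℂ) (p : Pt) (c : Chart u p), c.s p ≠ 0 →
  ∃ κ : Pt → ℂ, AnalyticAt ℂ κ 0 ∧ κ 0 ≠ 0 ∧
    ∀ᶠ w in 𝓝 (0 : Pt), fderiv ℂ c.χ w ![-w 1, w 0] = κ w • ![eval (c.χ w) u.1, eval (c.χ w) u.2]

/-- `s / F` is a first integral when `u / F` is closed. -/
def StFI : Prop := ∀ (u : Pol ℂ × Pol ℂ) (p : Pt) (c : Chart u p) (F : Pol ℂ), c.s p ≠ 0 →
  eval p F ≠ 0 → F * dvg u = wedge (ham F) u →
  ∀ᶠ z in 𝓝 p, eval z u.1 * dP (fun x => c.s x / eval x F) 0 z +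
    eval z u.2 * dP (fun x => c.s x / eval x F) 1 z = 0

/-- Vanishing circle averages. -/
def StAVG : Prop := ∀ (g : Pol ℂ) (N : ℕ),
  ((fun r : ℂ => ∫ θ in (0 : ℝ)..2 * Real.pi, eval ![r * Real.cos θ, r * Real.sin θ] g)
    =O[𝓝 0] fun r => ‖r‖ ^ N) →
  ∃ a : Pol ℂ, g - (X 0 * pderiv 1 a - X 1 * pderiv 0 a) ∈ mI ℂ ^ N

/-- Vanishing Melnikov integral implies the formal condition. -/
def StTSTAR : Prop := ∀ (u v : Pol ℂ × Pol ℂ) (p : Pt) (c : Chart u p) (F : Pol ℂ),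
  eval p (jacP u) ≠ 0 → eval p F ≠ 0 → F * dvg u = wedge (ham F) u →
  (∀ᶠ r in 𝓝 (0 : ℂ), c.mel v r = 0) →
  ∀ N, ∃ a : Pol ℂ, wedge (trP p v) (trP p u) - tr p F * act (trP p u) a ∈ mI ℂ ^ N

/-- A relatively exact form has vanishing Melnikov integral. -/
def StEXACT : Prop := ∀ (u v : Pol ℂ × Pol ℂ) (p : Pt) (c : Chart u p) (F : Pol ℂ) (a : Pt → ℂ),
  eval p (jacP u) ≠ 0 → eval p F ≠ 0 → F * dvg u = wedge (ham F) u → AnalyticAt ℂ a p →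
  (∀ᶠ z in 𝓝 p, eval z (wedge v u) =
    eval z F * (eval z u.1 * dP a 0 z + eval z u.2 * dP a 1 z)) →
  ∀ᶠ r in 𝓝 (0 : ℂ), c.mel v r = 0

def StTLEX : Prop := ∀ (G : Type) [Fintype G] [DecidableEq G] (dd : G → ℕ) (f : G → Pol ℂ)
  (lam : G → ℂ) (p : Pt) (v : Pol ℂ × Pol ℂ), (∀ g, eval p (f g) = 1) → v ∈ InTL dd f lam →
  ∃ a : Pt → ℂ, AnalyticAt ℂ a p ∧ ∀ᶠ z in 𝓝 p, eval z (wedge v (om f lam)) =
    eval z (∏ g, f g) * (eval z (om f lam).1 * dP a 0 z + eval z (om f lam).2 * dP a 1 z)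

/-! ### Local algebra at a nondegenerate singular point -/

def StLIN : Prop := ∀ (k : Type) [Field k] [CharZero k] (α β γ : k) (g : Pol k) (j : ℕ),
  α ^ 2 + β * γ ≠ 0 → g.IsHomogeneous j →
  act (C α * X 0 + C β * X 1, C γ * X 0 - C α * X 1) g = 0 →
  g = 0 ∨ ∃ (i : ℕ) (c : k), j = 2 * i ∧
    g = C c * (C γ * X 0 ^ 2 - C (2 * α) * X 0 * X 1 - C β * X 1 ^ 2) ^ i

def StKERN : Prop := ∀ (k : Type) [Field k] [CharZero k] (u : Pol k × Pol k) (H a : Pol k) (N : ℕ),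
  OrdP 1 u → coeff 0 (dvg u) = 0 → jac u ≠ 0 → H ∈ mI k ^ 2 → H ∉ mI k ^ 3 →
  act u H ∈ mI k ^ (N + 3) → act u a ∈ mI k ^ N →
  ∃ c : ℕ → k, a - ∑ i ∈ Finset.range ((N + 1) / 2), C (c i) * H ^ i ∈ mI k ^ N

def StRKLE : Prop := ∀ (k : Type) [Field k] (u : Pol k × Pol k) (f : Pol k) (N : ℕ),
  OrdP 1 u → f ∈ mI k ^ 2 → f ∉ mI k ^ 3 → act u f ∈ mI k ^ (N + 1) →
  Module.finrank k (LinearMap.range (Lmap N u)) + (N / 2 + 1) ≤ Fintype.card (Mon N)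

def StRKGE : Prop := ∀ (k : Type) [Field k] [CharZero k] (u : Pol k × Pol k) (H : Pol k) (N : ℕ),
  OrdP 1 u → coeff 0 (dvg u) = 0 → jac u ≠ 0 → H ∈ mI k ^ 2 → H ∉ mI k ^ 3 →
  act u H ∈ mI k ^ (N + 4) →
  Fintype.card (Mon N) ≤ Module.finrank k (LinearMap.range (Lmap N u)) + (N / 2 + 1)

/-- Truncated logarithm. -/
def StLOG : Prop := ∀ (R : Type) [CommRing R] [Algebra ℚ R] (G : Type) [Fintype G] [DecidableEq G]
  (f : G → Pol R) (lam : G → R) (M : ℕ), (∀ g, coeff 0 (f g) = 1) →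
  ∃ H : Pol R, H ∈ mI R ∧ OrdP M ((∏ g, f g) • ham H - om f lam)

/-- Truncated first integral of a normalised logarithmic form. -/
def StFINT : Prop := ∀ (R : Type) [CommRing R] [Algebra ℚ R] (G : Type) [Fintype G]
  [DecidableEq G] (dd : G → ℕ) (f : G → Pol R) (lam : G → R) (M : ℕ), Nrm dd f lam →
  OrdP 1 (om f lam) ∧ coeff 0 (dvg (om f lam)) = 0 ∧
  ∃ H : Pol R, H ∈ mI R ^ 2 ∧ OrdP M ((∏ g, f g) • ham H - om f lam) ∧
    act (om f lam) H ∈ mI R ^ M ∧ (2 ≤ M → H ∈ mI R ^ 3 → OrdP 2 (om f lam))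

def StTLSUB : Prop := ∀ (R : Type) [CommRing R] [Algebra ℚ R] (G : Type) [Fintype G]
  [DecidableEq G] (dd : G → ℕ) (f : G → Pol R) (lam : G → R) (N : ℕ),
  (∀ g, coeff 0 (f g) = 1) → InTL dd f lam ≤ InT N f lam

def StDIMTL : Prop := ∀ (k : Type) [Field k] (G : Type) [Fintype G] [DecidableEq G] (d : ℕ)
  (dd : G → ℕ) (f : G → Pol k) (lam : G → k), (∀ g, (f g).totalDegree ≤ dd g) →
  (∀ g, coeff 0 (f g) = 1) →
  Module.finrank k (TL d dd f lam 0) ≤ Fintype.card (Idx dd)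

/-- Derivative of a logarithmic form in a family. -/
def StDLOG : Prop := ∀ (R k : Type) [CommRing R] [CommRing k] (D : Der R k) (G : Type) [Fintype G]
  [DecidableEq G] (f : G → Pol R) (lam : G → R),
  D.p1P (om f lam) =
    ∑ g, tv (fun j => map D.c0 (f j)) (fun j => D.c0 (lam j)) g (D.p1 (f g)) +
      ∑ g, D.c1 (lam g) • lg (fun j => map D.c0 (f j)) g ∧
  D.p1 (∏ g, f g) = ∑ g, D.p1 (f g) * ∏ j ∈ Finset.univ.erase g, map D.c0 (f j)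

/-! ### Formal power series -/

def StKOS : Prop := ∀ (k : Type) [Field k] (u : Pol k × Pol k), OrdP 1 u → jac u ≠ 0 →
  ∀ β : Ser k × Ser k, wedge (coeP u) β = 0 → ∃ c : Ser k, β = c • coeP u

/-- Linear compactness of power series. -/
def StLC : Prop := ∀ (k : Type) [Field k] (ι κ : Type) [Fintype ι] [Fintype κ]
  (T : (ι → Ser k) →ₗ[k] (κ → Ser k)) (b : κ → Ser k),
  (∀ N : ℕ, ∃ M : ℕ, ∀ a : ι → Ser k,
    (∀ i (m : Fin 2 →₀ ℕ), m.degree < M → MvPowerSeries.coeff m (a i) = 0) →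
    ∀ j (m : Fin 2 →₀ ℕ), m.degree < N → MvPowerSeries.coeff m (T a j) = 0) →
  (∀ N : ℕ, ∃ a : ι → Ser k, ∀ j (m : Fin 2 →₀ ℕ), m.degree < N →
    MvPowerSeries.coeff m (T a j) = MvPowerSeries.coeff m (b j)) →
  ∃ a, T a = b

def StFORM : Prop := ∀ (k : Type) [Field k] (ω0 ω1 : Pol k × Pol k) (F0 F1 g0 g1 : Pol k),
  ((∀ N, ∃ a : Pol k, g0 - F0 * act ω0 a ∈ mI k ^ N) →
    ∃ a : Ser k, (g0 : Ser k) = (F0 : Ser k) * actS (coeP ω0) a) ∧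
  ((∀ N, ∃ a0 a1 : Pol k, g0 - F0 * act ω0 a0 ∈ mI k ^ N ∧
      g1 - (F1 * act ω0 a0 + F0 * act ω1 a0 + F0 * act ω0 a1) ∈ mI k ^ N) →
    ∃ a0 a1 : Ser k, (g0 : Ser k) = (F0 : Ser k) * actS (coeP ω0) a0 ∧
      (g1 : Ser k) = (F1 : Ser k) * actS (coeP ω0) a0 + (F0 : Ser k) * actS (coeP ω1) a0 +
        (F0 : Ser k) * actS (coeP ω0) a1)

/-- Elementary properties of `Null`. -/
def StNULL : Prop := ∀ (k : Type) [Field k] (h : Ser k × Ser k),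
  Null h 0 ∧
  (∀ ρ σ, Null h ρ → Null h σ → Null h (ρ + σ)) ∧
  (∀ (p : Polynomial k) ρ, Null h ρ → Null h (p.map (algebraMap k (Ser k)) * ρ)) ∧
  (∀ ρ, Null h (Polynomial.X * ρ) → Null h ρ) ∧
  (∀ β, Null h (Polynomial.C (dvgS β) + Polynomial.X * Polynomial.C (wedge h β))) ∧
  (∀ B, Null h (Polynomial.C (wedge (hamS B) h)))

def StLEAD : Prop := ∀ (k : Type) [Field k] (h : Ser k × Ser k), Morse h →
  ∀ (ρ : Polynomial (Ser k)) (M : ℕ), Null h ρ → ρ.natDegree ≤ M →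
    MvPowerSeries.constantCoeff (ρ.coeff M) = 0

/-- The connection preserves `Null`. -/
def StCONN : Prop := ∀ (k : Type) [Field k] (δ : Derivation ℤ k k),
  (∀ a b : Ser k, serMap δ (a + b) = serMap δ a + serMap δ b) ∧
  (∀ a b : Ser k, serMap δ (a * b) = a * serMap δ b + serMap δ a * b) ∧
  (∀ (c : k), serMap δ (MvPowerSeries.C c) = MvPowerSeries.C (δ c)) ∧
  (∀ i : Fin 2, serMap δ (MvPowerSeries.X i) = 0) ∧
  (∀ (i : Fin 2) (a : Ser k),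
    serMap δ (MvPowerSeries.pderiv k i a) = MvPowerSeries.pderiv k i (serMap δ a)) ∧
  ∀ (h : Ser k × Ser k) (H' : Ser k), (serMap δ h.1, serMap δ h.2) = hamS H' →
    ∀ ρ σ : Polynomial (Ser k), (∀ j, σ.coeff j = serMap δ (ρ.coeff j)) → Null h ρ →
      Null h (σ + Polynomial.X * Polynomial.C H' * ρ)

/-! ### Line arrangements -/

/-- Basic facts on a generic arrangement. -/
def StLB : Prop := ∀ (k G I : Type) [Field k] [CharZero k] [Fintype G] [DecidableEq G]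
  [Fintype I] [DecidableEq I],
  ∀ L : Lines k G I, L.Gen →
  (∀ i, L.mu i ≠ 0) ∧ (∑ i, L.mu i ≠ 0) ∧ (∀ g g', g ≠ g' → L.lam g ≠ L.lam g') ∧
  (∑ g, L.dd g = Fintype.card I) ∧ (∀ g, 1 ≤ L.dd g) ∧
  (∏ g, L.f g = ∏ i, L.l i) ∧ om L.f L.lam = om L.l L.mu ∧
  (∀ c : G → k, ∑ i, c (L.grp i) • lg L.l i = ∑ g, c g • lg L.f g) ∧
  (∀ g r, tv L.f L.lam g r =
    (C (L.lam g) * ∏ m ∈ (L.fib g)ᶜ, L.l m) • ham r +
      r • ∑ m ∈ (L.fib g)ᶜ, (C (L.mu m) * ∏ n ∈ ((L.fib g)ᶜ).erase m, L.l n) • ham (L.l m)) ∧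
  Nrm L.dd L.f L.lam ∧ jac (om L.f L.lam) ≠ 0

def StLS : Prop := ∀ (k G I : Type) [Field k] [CharZero k] [Fintype G] [DecidableEq G]
  [Fintype I] [DecidableEq I],
  ∀ L : Lines k G I, L.Gen →
  Morse L.h ∧ (∀ c, dvgS (L.zeta c) = 0) ∧
  (∀ c, ((∏ i, L.l i : Pol k) : Ser k) • L.zeta c = coeP (∑ i, c i • lg L.l i)) ∧
  ((∏ i, L.l i : Pol k) : Ser k) • L.h = coeP (om L.f L.lam) ∧
  (∀ c, wedge L.h (L.zeta c) = ∑ i, ∑ j, (L.mu i * c j) • L.e i j) ∧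
  (∀ i j m, i ≠ j → j ≠ m → i ≠ m →
    L.D i j m • (L.t i * L.t j * L.t m) = L.e i j + L.e j m + L.e m i) ∧
  (∀ (g : G) (r : Pol k), coeP (tv L.f L.lam g r) = ((∏ i, L.l i : Pol k) : Ser k) •
    (L.lam g • hamS ((r : Ser k) * ∏ i ∈ L.fib g, L.t i) +
      ((r : Ser k) * ∏ i ∈ L.fib g, L.t i) • L.h))

/-- Gauss-Manin connection on logarithmic 2-forms. -/
def StGM : Prop := ∀ (k G I : Type) [Field k] [CharZero k] [Fintype G] [DecidableEq G]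
  [Fintype I] [DecidableEq I],
  ∀ (L : Lines k G I), L.Gen → ∀ (δ : Derivation ℤ k k) (s : I → k), L.Mov δ s →
  (serMap δ L.h.1, serMap δ L.h.2) = hamS (-∑ i, (L.mu i * s i) • L.t i) ∧
  ∀ j m, Null L.h (Polynomial.C (serMap δ (L.e j m)) +
    Polynomial.X * Polynomial.C (-∑ i, (L.mu i * s i) • L.t i) * Polynomial.C (L.e j m) -
    Polynomial.X * Polynomial.C (∑ i, (L.mu i * L.theta s i j m) • (L.e i j + L.e j m + L.e m i)))

def StINJ : Prop := ∀ (k G I : Type) [Field k] [CharZero k] [Fintype G] [DecidableEq G]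
  [Fintype I] [DecidableEq I],
  ∀ (L : Lines k G I), L.Gen → (4 ≤ Fintype.card I → L.Res) → L.Inj

/-- Partial fractions. -/
def StPF : Prop := ∀ (k G I : Type) [Field k] [CharZero k] [Fintype G] [DecidableEq G]
  [Fintype I] [DecidableEq I],
  ∀ (L : Lines k G I), L.Gen → ∀ P : Pol k,
  P.totalDegree + 1 ≤ Fintype.card I → (P : Ser k) * ∏ i, L.t i ∈ L.A1

def StDEC : Prop := ∀ (k G I : Type) [Field k] [CharZero k] [Fintype G] [DecidableEq G]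
  [Fintype I] [DecidableEq I],
  ∀ (L : Lines k G I), L.Gen →
  (∀ u : Ser k × Ser k, u.1 ∈ L.A1 → u.2 ∈ L.A1 →
    ∃ χ : I → Ser k × Ser k, (∀ j, χ j ∈ L.B j) ∧ u = ∑ j, χ j) ∧
  (∀ j χ, χ ∈ L.B j → L.mu j • dvgS χ + wedge L.h χ ∈ L.E) ∧
  (∀ j χ, χ ∈ L.B j → ∃ σ : Pol k × Pol k, DegLE (Fintype.card I - 1) σ ∧
    ((∏ i, L.l i : Pol k) : Ser k) • χ = coeP σ) ∧
  (∀ c : I → k, DegLE (Fintype.card I - 1) (∑ i, c i • lg L.l i)) ∧
  (∀ x ∈ L.E, ∃ σ : Pol k, ((∏ i, L.l i : Pol k) : Ser k) * x = σ)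

/-- Separation of the groups by the poles at `z = 1 / lam g`. -/
def StRED : Prop := ∀ (k G I : Type) [Field k] [CharZero k] [Fintype G] [DecidableEq G]
  [Fintype I] [DecidableEq I],
  ∀ (L : Lines k G I), L.Gen → L.Inj →
  (∀ χ : G → Ser k × Ser k, (∀ g, L.lam g • dvgS (χ g) + wedge L.h (χ g) ∈ L.E) →
    Null L.h (Polynomial.C (dvgS (∑ g, χ g))) →
    ∀ g, ∃ c, L.lam g • dvgS (χ g) + wedge L.h (χ g) = wedge L.h (L.zeta c)) ∧
  (∀ (χ ξ χ' : G → Ser k × Ser k) (w : G → Ser k),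
    (∀ g, L.lam g • dvgS (χ g) + wedge L.h (χ g) ∈ L.E) →
    (∀ g, L.lam g • dvgS (χ' g) + wedge L.h (χ' g) ∈ L.E) → (∀ g, w g ∈ L.E) →
    (∀ g, L.lam g • dvgS (ξ g) + wedge L.h (ξ g) = dvgS (χ' g) + w g) →
    Null L.h (Polynomial.C (dvgS (∑ g, χ g + ∑ g, ξ g))) →
    ∀ g, ∃ c, L.lam g • dvgS (χ' g) + wedge L.h (χ' g) = wedge L.h (L.zeta c))

/-- Vanishing of a twisted first cohomology, polynomial form. -/
def StHONE : Prop := ∀ (k I : Type) [Field k] [CharZero k] [Fintype I] [DecidableEq I],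
  ∀ (a b ν : I → k) (lam : k) (l : I → Pol k) (σ : Pol k × Pol k) (e : ℕ),
  (∀ i, l i = 1 + C (a i) * X 0 + C (b i) * X 1) →
  (∀ i, a i ≠ 0 ∨ b i ≠ 0) → (∀ i j, i ≠ j → a i * b j - a j * b i ≠ 0) → (∀ i, ν i ≠ 0) →
  (∀ n : ℕ, 1 ≤ n → (n : k) * lam + ∑ i, ν i ≠ 0) → DegLE e σ →
  C lam * (∏ i, l i) * dvg σ +
    ∑ i, C (ν i) * (∏ m ∈ Finset.univ.erase i, l m) * wedge (ham (l i)) σ = 0 →
  ∃ r : Pol k, (r = 0 ∨ r.totalDegree + Fintype.card I ≤ e + 1) ∧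
    σ = lam • ham ((∏ i, l i) * r) +
      r • ∑ i, (C (ν i) * ∏ m ∈ Finset.univ.erase i, l m) • ham (l i)

def StHG : Prop := ∀ (k G I : Type) [Field k] [CharZero k] [Fintype G] [DecidableEq G]
  [Fintype I] [DecidableEq I],
  ∀ (L : Lines k G I), L.Gen → ∀ (g : G) (σ : Pol k × Pol k) (ν : Ser k × Ser k),
  DegLE (Fintype.card I - 1) σ → ((∏ i, L.l i : Pol k) : Ser k) • ν = coeP σ →
  L.lam g • dvgS ν + wedge L.h ν = 0 →
  ∃ r : Pol k, r.totalDegree ≤ L.dd g ∧ σ = tv L.f L.lam g r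

def StDIV : Prop := ∀ (k G I : Type) [Field k] [CharZero k] [Fintype G] [DecidableEq G]
  [Fintype I] [DecidableEq I],
  ∀ (L : Lines k G I), L.Gen → ∀ (i : I) (r : Pol k),
  L.l i ∣ wedge (tv L.f L.lam (L.grp i) r) (ham (L.l i)) → L.l i ∣ r

/-- Divisibility by products of lines and values at intersection points. -/
def StLDV : Prop := ∀ (k G I : Type) [Field k] [CharZero k] [Fintype G] [DecidableEq G]
  [Fintype I] [DecidableEq I],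
  ∀ (L : Lines k G I), L.Gen →
  (∀ (A : Finset I) (r : Pol k), (∀ i ∈ A, L.l i ∣ r) → (∏ i ∈ A, L.l i) ∣ r) ∧
  (∀ (A : Finset I), (∏ i ∈ A, L.l i).totalDegree = A.card) ∧
  (∀ (A : Finset I) (j : I) (κ : I → k) (w : Pol k), j ∉ A →
    L.l j ∣ ∑ i ∈ A, C (κ i) * ∏ m ∈ A.erase i, L.l m - w * ∏ i ∈ A, L.l i → ∀ i ∈ A, κ i = 0)

def StTZ : Prop := ∀ (k G I : Type) [Field k] [CharZero k] [Fintype G] [DecidableEq G]
  [Fintype I] [DecidableEq I],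
  ∀ (L : Lines k G I), L.Gen → L.Inj → ∀ (u : Pol k × Pol k) (a : Ser k),
  DegLE (Fintype.card I - 1) u →
  ((wedge u (om L.f L.lam) : Pol k) : Ser k) =
    ((∏ g, L.f g : Pol k) : Ser k) * actS (coeP (om L.f L.lam)) a →
  ∃ (r : G → Pol k) (c : I → k), (∀ g, (r g).totalDegree ≤ L.dd g) ∧
    u = ∑ g, tv L.f L.lam g (r g) + ∑ i, c i • lg L.l i

/-- First order condition in the twisted cohomology. -/
def StFA : Prop := ∀ (k G I : Type) [Field k] [CharZero k] [Fintype G] [DecidableEq G]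
  [Fintype I] [DecidableEq I],
  ∀ (L : Lines k G I), L.Gen → ∀ (j : G → I), (∀ g, L.grp (j g) = g) →
  ∀ (c : I → k) (u1 : Pol k × Pol k) (a0 a1 : Ser k),
  ((wedge (∑ i, c i • lg L.l i) (om L.f L.lam) : Pol k) : Ser k) =
    ((∏ g, L.f g : Pol k) : Ser k) * actS (coeP (om L.f L.lam)) a0 →
  ((wedge u1 (om L.f L.lam) + wedge (∑ i, c i • lg L.l i)
      (∑ g, tv L.f L.lam g (L.pert j g)) : Pol k) : Ser k) =
    ((∑ g, L.pert j g * ∏ m ∈ Finset.univ.erase g, L.f m : Pol k) : Ser k) *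
        actS (coeP (om L.f L.lam)) a0 +
      ((∏ g, L.f g : Pol k) : Ser k) * actS (coeP (∑ g, tv L.f L.lam g (L.pert j g))) a0 +
      ((∏ g, L.f g : Pol k) : Ser k) * actS (coeP (om L.f L.lam)) a1 →
  Null L.h (Polynomial.C (dvgS ((∏ i, L.t i) • coeP u1 - (∑ g, L.pertS j g) • L.zeta c)))

/-- The double pole part of the first order condition. -/
def StFB : Prop := ∀ (k G I : Type) [Field k] [CharZero k] [Fintype G] [DecidableEq G]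
  [Fintype I] [DecidableEq I],
  ∀ (L : Lines k G I), L.Gen → ∀ (j : G → I), (∀ g, L.grp (j g) = g) →
  ∀ (c : I → k),
  (∃ u : Ser k × Ser k, u.1 ∈ L.A1 ∧ u.2 ∈ L.A1 ∧
    dvgS (-((∑ g, L.pertS j g) • L.zeta c)) = dvgS (u + ∑ g,
      ((∑ i ∈ (L.fib g).erase (j g), (c i - c (j g)) • L.t i) * L.t (j g) ^ 2) •
        hamS (L.l (j g) : Ser k))) ∧
  ∀ (g : G) (κ : I → k), ∃ χ ∈ L.B' (j g), ∃ w ∈ L.E,
    L.lam g • dvgS (((∑ i ∈ (L.fib g).erase (j g), κ i • L.t i) * L.t (j g) ^ 2) •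
        hamS (L.l (j g) : Ser k)) +
      wedge L.h (((∑ i ∈ (L.fib g).erase (j g), κ i • L.t i) * L.t (j g) ^ 2) •
        hamS (L.l (j g) : Ser k)) = dvgS χ + w

def StFC : Prop := ∀ (k G I : Type) [Field k] [CharZero k] [Fintype G] [DecidableEq G]
  [Fintype I] [DecidableEq I],
  ∀ (L : Lines k G I), L.Gen → ∀ (j : I) (κ c : I → k) (χ : Ser k × Ser k)
  (w : Ser k), χ ∈ L.B' j → w ∈ L.E →
  L.mu j • dvgS (((∑ i ∈ (L.fib (L.grp j)).erase j, κ i • L.t i) * L.t j ^ 2) •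
      hamS (L.l j : Ser k)) +
    wedge L.h (((∑ i ∈ (L.fib (L.grp j)).erase j, κ i • L.t i) * L.t j ^ 2) •
      hamS (L.l j : Ser k)) = dvgS χ + w →
  L.mu j • dvgS χ + wedge L.h χ = wedge L.h (L.zeta c) →
  ∀ i ∈ (L.fib (L.grp j)).erase j, κ i = 0

/-- First order rigidity in power series. -/
def StFT : Prop := ∀ (k G I : Type) [Field k] [CharZero k] [Fintype G] [DecidableEq G]
  [Fintype I] [DecidableEq I],
  ∀ (L : Lines k G I), L.Gen → L.Inj → ∀ (j : G → I), (∀ g, L.grp (j g) = g) →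
  ∀ (c : I → k) (u1 : Pol k × Pol k), DegLE (Fintype.card I - 1) u1 →
  Null L.h (Polynomial.C (dvgS ((∏ i, L.t i) • coeP u1 - (∑ g, L.pertS j g) • L.zeta c))) →
  ∀ i, c i = c (j (L.grp i))

def StKER : Prop := ∀ (k G I : Type) [Field k] [CharZero k] [Fintype G] [DecidableEq G]
  [Fintype I] [DecidableEq I],
  ∀ (L : Lines k G I), L.Gen → ∀ (r : G → Pol k) (μ : G → k),
  (∀ g, (r g).totalDegree ≤ L.dd g) → (∀ g, coeff 0 (r g) = 0) →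
  ∑ g, tv L.f L.lam g (r g) + ∑ g, μ g • lg L.f g = 0 → r = 0 ∧ μ = 0

def StSYLL : Prop := ∀ (k G I : Type) [Field k] [CharZero k] [Fintype G] [DecidableEq G]
  [Fintype I] [DecidableEq I],
  ∀ (L : Lines k G I), L.Gen →
  SylInj (Fintype.card I - 1) (om L.f L.lam)

/-- Finite order versions of the two rigidity statements. -/
def StSTAB : Prop := ∀ (k G I : Type) [Field k] [CharZero k] [Fintype G] [DecidableEq G]
  [Fintype I] [DecidableEq I],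
  ∀ (L : Lines k G I), L.Gen → L.Inj → ∀ (j : G → I),
  (∀ g, L.grp (j g) = g) → ∃ N : ℕ,
  (∀ u : Pol k × Pol k, DegLE (Fintype.card I - 1) u → u ∈ InT N L.f L.lam →
    ∃ (r : G → Pol k) (c : I → k), (∀ g, (r g).totalDegree ≤ L.dd g) ∧
      u = ∑ g, tv L.f L.lam g (r g) + ∑ i, c i • lg L.l i) ∧
  (∀ (c : I → k) (u1 : Pol k × Pol k) (a0 a1 : Pol k), DegLE (Fintype.card I - 1) u1 →
    wedge (∑ i, c i • lg L.l i) (om L.f L.lam) - (∏ g, L.f g) * act (om L.f L.lam) a0 ∈ mI k ^ N →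
    wedge u1 (om L.f L.lam) + wedge (∑ i, c i • lg L.l i) (∑ g, tv L.f L.lam g (L.pert j g)) -
      ((∑ g, L.pert j g * ∏ m ∈ Finset.univ.erase g, L.f m) * act (om L.f L.lam) a0 +
        (∏ g, L.f g) * act (∑ g, tv L.f L.lam g (L.pert j g)) a0 +
        (∏ g, L.f g) * act (om L.f L.lam) a1) ∈ mI k ^ N →
    ∀ i, c i = c (j (L.grp i)))

/-- The smoothed family is normalised and specialises to the arrangement. -/
def StFE : Prop := ∀ (k G I : Type) [Field k] [CharZero k] [Fintype G] [DecidableEq G]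
  [Fintype I] [DecidableEq I],
  ∀ (L : Lines k G I), L.Gen → ∀ (j : G → I), (∀ g, L.grp (j g) = g) →
  Nrm L.dd (L.fE j) L.lamE ∧ (∀ g, map (Der.eps k).c0 (L.fE j g) = L.f g) ∧
  (∀ g, (Der.eps k).p1 (L.fE j g) = L.pert j g) ∧ (∀ g, (Der.eps k).c0 (L.lamE g) = L.lam g) ∧
  (∀ g, (Der.eps k).c1 (L.lamE g) = 0)

def StSAT : Prop := ∀ (k G I : Type) [Field k] [CharZero k] [Fintype G] [DecidableEq G]
  [Fintype I] [DecidableEq I],
  ∀ (L : Lines k G I), L.Gen → ∀ (j : G → I), (∀ g, L.grp (j g) = g) →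
  ∀ (N : ℕ) (u : Pol (Polynomial k) × Pol (Polynomial k)),
  (Polynomial.X : Polynomial k) • u ∈ InT N (L.fE j) L.lamE → u ∈ InT N (L.fE j) L.lamE

def StSTEP : Prop := ∀ (k G I : Type) [Field k] [CharZero k] [Fintype G] [DecidableEq G]
  [Fintype I] [DecidableEq I],
  ∀ (L : Lines k G I), L.Gen → L.Inj → ∀ (j : G → I),
  (∀ g, L.grp (j g) = g) → ∃ N : ℕ,
  ∀ η ∈ TN (Fintype.card I - 1) N (L.fE j) L.lamE 0,
    ∃ η1 ∈ TL (Fintype.card I - 1) L.dd (L.fE j) L.lamE 0,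
      ∃ η2 ∈ TN (Fintype.card I - 1) N (L.fE j) L.lamE 0,
        η = η1 + (Polynomial.X : Polynomial k) • η2

/-- A subspace stable under a coordinatewise derivation is defined over the constants. -/
def StCONST : Prop := ∀ (k : Type) [Field k] (ι : Type) [Fintype ι] (δ : Derivation ℤ k k)
  (U : Submodule k (ι → k)), (∀ v ∈ U, (fun i => δ (v i)) ∈ U) →
  U ≤ Submodule.span k {v | v ∈ U ∧ ∀ i, δ (v i) = 0} ∧
  ∀ w, w ∉ U → ∃ ψ : ι → k, (∀ i, δ (ψ i) = 0) ∧ (∀ v ∈ U, ∑ i, ψ i * v i = 0) ∧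
    ∑ i, ψ i * w i ≠ 0

/-- Irreducibility under the rank one residues. -/
def StIRR : Prop := ∀ (k : Type) [Field k] [CharZero k] (I : Type) [Fintype I] [DecidableEq I]
  (mu : I → k), (∀ i, mu i ≠ 0) → ∑ i, mu i ≠ 0 →
  (∀ (U : Submodule k (I × I → k)),
    (∀ v, (∀ x y w, x ≠ y → y ≠ w → x ≠ w → xi mu x y w v = 0) → v ∈ U) →
    (∃ v ∈ U, ∃ x y w, x ≠ y ∧ y ≠ w ∧ x ≠ w ∧ xi mu x y w v ≠ 0) →
    (4 ≤ Fintype.card I → ∀ x y w, x ≠ y → y ≠ w → x ≠ w → (∃ v ∈ U, xi mu x y w v ≠ 0) →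
      tri x y w ∈ U) →
    U = ⊤) ∧
  ∀ v : I × I → k, (∀ x y w, x ≠ y → y ≠ w → x ≠ w → xi mu x y w v = 0) →
    ∃ c : I → k, ∀ i j, v (i, j) - v (j, i) = mu i * c j - mu j * c i

def StINJA : Prop := ∀ (k G I : Type) [Field k] [CharZero k] [Fintype G] [DecidableEq G]
  [Fintype I] [DecidableEq I] (L : Lines k G I), L.Gen → ∀ (δ : Derivation ℤ k k) (s : I → k),
  L.Mov δ s → ∀ v : I × I → Polynomial k, Null L.h (L.rho v) →
    Null L.h (L.rho (conn δ L.mu (L.theta s) v))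

/-- The limit at `z = 0` of a saturated subconnection is stable under the residues. -/
def StINJB : Prop := ∀ (k : Type) [Field k] [CharZero k] (I : Type) [Fintype I] [DecidableEq I]
  (mu : I → k), (∀ i, mu i ≠ 0) → ∑ i, mu i ≠ 0 →
  ∀ K : Submodule (Polynomial k) (I × I → Polynomial k),
  (∀ v : I × I → k, (∀ x y w, x ≠ y → y ≠ w → x ≠ w → xi mu x y w v = 0) →
    (fun p => Polynomial.C (v p)) ∈ K) →
  (∀ v : I × I → Polynomial k, (Polynomial.X : Polynomial k) • v ∈ K → v ∈ K) →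
  (4 ≤ Fintype.card I → ∀ x y w : I, x ≠ y → y ≠ w → x ≠ w →
    ∃ (δ : Derivation ℤ k k) (θ : I → I → I → k), (∀ i, δ (mu i) = 0) ∧
      (∀ v ∈ K, conn δ mu θ v ∈ K) ∧
      ∀ (κ : k) (r : I → I → I → k), (∀ i j m, δ (r i j m) = 0) →
        δ κ = ∑ i, ∑ j, ∑ m, r i j m * θ i j m →
          r x y w + r y w x + r w x y + r x w y + r w y x + r y x w = 0) →
  (∀ r : Polynomial k, r ≠ 0 → ¬ ∀ v : I × I → Polynomial k, r • v ∈ K) →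
  ∀ v ∈ K, ∀ (n : ℕ) (x y w : I), x ≠ y → y ≠ w → x ≠ w →
    xi mu x y w (fun p => (v p).coeff n) = 0

/-- A derivative with at most a simple pole along `D` has no pole. -/
def StVAL : Prop := ∀ (R K : Type) [CommRing R] [IsDomain R] [IsNoetherianRing R] [Algebra ℚ R]
  [Field K] [Algebra R K] [IsFractionRing R K] (D : R) (δ0 : Derivation ℤ R R),
  Prime D → ¬ D ∣ δ0 D →
  ∃ δ : Derivation ℤ K K, (∀ x : R, δ (algebraMap R K x) = algebraMap R K (δ0 x)) ∧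
    ∀ (T : Type) [Fintype T] (κ r0 : K) (r : T → K) (n0 : R) (n e : T → R),
      δ r0 = 0 → (∀ t, δ (r t) = 0) → ¬ D ∣ n0 → (∀ t, ¬ D ∣ e t) →
      δ κ = r0 * (algebraMap R K n0 / algebraMap R K D) +
        ∑ t, r t * (algebraMap R K (n t) / algebraMap R K (e t)) → r0 = 0

/-- The universal arrangement over a polynomial ring. -/
def StEXR : Prop := ∀ (G I : Type) [Fintype G] [DecidableEq G] [Fintype I] [DecidableEq I]
  (grp : I → G), Function.Surjective grp → 3 ≤ Fintype.card I →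
  ∃ (R : Type) (_ : CommRing R) (_ : IsDomain R) (_ : IsNoetherianRing R) (_ : Algebra ℂ R)
    (a b : I → R) (lam : G → ℂ) (br : I → I → R) (D : I → I → I → R),
    (∀ i j, br i j = a i * b j - a j * b i) ∧ (∀ i j m, D i j m = br j m + br m i + br i j) ∧
    (∀ i j, i ≠ j → br i j ≠ 0) ∧ (∀ i j m, i ≠ j → j ≠ m → i ≠ m → D i j m ≠ 0) ∧
    ∑ i, lam (grp i) • a i = 0 ∧ ∑ i, lam (grp i) • b i = 0 ∧
    (∑ i, lam (grp i) • a i ^ 2) * (∑ i, lam (grp i) • b i ^ 2) -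
      (∑ i, lam (grp i) • (a i * b i)) ^ 2 ≠ 0 ∧
    (∀ n : G → ℤ, ∑ g, (n g : ℂ) * lam g = 0 → ∀ g, n g = 0) ∧
    (4 ≤ Fintype.card I → ∀ x y w : I, x ≠ y → y ≠ w → x ≠ w → Prime (D x y w) ∧
      (∀ i j m, i ≠ j → j ≠ m → i ≠ m → D x y w ∣ D i j m →
        ({i, j, m} : Finset I) = {x, y, w}) ∧
      ∃ (δ0 : Derivation ℤ R R) (s : I → R), (∀ i, δ0 (a i) = s i * a i) ∧
        (∀ i, δ0 (b i) = s i * b i) ∧ (∀ c : ℂ, δ0 (algebraMap ℂ R c) = 0) ∧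
        ¬ D x y w ∣ s x * br y w + s y * br w x + s w * br x y)

/-- Existence of a sufficiently general arrangement. -/
def StEXL : Prop := ∀ (G I : Type) [Fintype G] [DecidableEq G] [Fintype I] [DecidableEq I]
  (grp : I → G), Function.Surjective grp → (∃ g g' : G, g ≠ g') → 3 ≤ Fintype.card I →
  ∃ (k : Type) (_ : Field k) (_ : Algebra ℂ k) (L : Lines k G I),
    L.grp = grp ∧ L.Gen ∧ (4 ≤ Fintype.card I → L.Res)

/-- A point of the logarithmic family, over some field, where the formal condition is sharp. -/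
def StEPS : Prop := ∀ (k G I : Type) [Field k] [Algebra ℂ k] [Fintype G] [DecidableEq G]
  [Fintype I] [DecidableEq I] (L : Lines k G I), L.Gen → L.Inj →
  ∃ (K : Type) (_ : Field K) (_ : Algebra ℂ K) (f : G → Pol K) (lam : G → K) (N : ℕ),
    Nrm L.dd f lam ∧ (∀ g, lam g ≠ 0) ∧ jac (om f lam) ≠ 0 ∧
    Module.finrank K (TN (Fintype.card I - 1) N f lam 0) ≤ Fintype.card (Idx L.dd)

/-! ### Polynomial maps -/

def StLIS : Prop := ∀ (U K : Type) [CommRing U] [Field K] (φ : U →+* K) (A J : Type) [Fintype A]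
  [DecidableEq A] (w : A → J → U), LinearIndependent K (fun a => fun j => φ (w a j)) →
  ∃ e : A → J, φ (Matrix.det (Matrix.of fun a a' => w a (e a'))) ≠ 0

def StSEMI : Prop := ∀ (U K : Type) [CommRing U] [Field K] (φ : U →+* K) (A B J : Type)
  [Fintype A] [Fintype B] [Fintype J] (l : A → J → U) (α : B → J → U) (ρ n : ℕ),
  ρ ≤ Module.finrank K (Submodule.span K (Set.range fun a => fun j => φ (l a j))) →
  Module.finrank K ((Submodule.span K (Set.range fun a => fun j => φ (l a j))).comap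
    (Fintype.linearCombination K fun b => fun j => φ (α b j))) ≤ n →
  ∃ Ψ : U, φ Ψ ≠ 0 ∧ ∀ ψ : U →+* ℂ, ψ Ψ ≠ 0 →
    Module.finrank ℂ (Submodule.span ℂ (Set.range fun a => fun j => ψ (l a j))) ≤ ρ →
    Module.finrank ℂ ((Submodule.span ℂ (Set.range fun a => fun j => ψ (l a j))).comap
      (Fintype.linearCombination ℂ fun b => fun j => ψ (α b j))) ≤ n

/-- Tangent vectors to a set of matrices of bounded rank. -/
def StDET : Prop := ∀ (ι J : Type) [Fintype ι] [Fintype J] (Z : Set (ι → ℂ))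
  (M : Matrix J J (MvPolynomial ι ℂ)) (ρ : ℕ) (y v : ι → ℂ) (x : J → ℂ),
  (∀ z ∈ Z, (M.map (eval z)).rank ≤ ρ) → ρ ≤ (M.map (eval y)).rank → v ∈ tangent Z y →
  (M.map (eval y)).mulVec x = 0 →
  ∃ x' : J → ℂ, (M.map (Der.pt y v).c1).mulVec x = (M.map (eval y)).mulVec x'

def StCHAIN : Prop := ∀ (k : Type) [CommRing k] [Algebra ℂ k] (ι κ : Type) [Fintype ι] [Fintype κ]
  (θ : ι → MvPolynomial κ ℂ) (τ v : κ → k) (Φ : MvPolynomial ι ℂ),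
  (Der.pt τ v).c1 (aeval θ Φ) = (Der.pt (fun i => aeval τ (θ i)) (dmap θ τ v)).c1 Φ

/-- An immersed affine space with the full tangent space is locally everything. -/
def StLOC : Prop := ∀ (ι κ : Type) [Fintype ι] [Fintype κ] (Z : Set (ι → ℂ))
  (θ : ι → MvPolynomial κ ℂ) (τ : κ → ℂ),
  (∀ Φ : MvPolynomial ι ℂ, (∀ z ∈ Z, eval z Φ = 0) → aeval θ Φ = 0) →
  Function.Injective (dmap θ τ) →
  (∀ v ∈ tangent Z (fun i => aeval τ (θ i)), v ∈ LinearMap.range (dmap θ τ)) →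
  ∀ Γ : MvPolynomial ι ℂ, aeval θ Γ = 0 →
    ∃ S : MvPolynomial ι ℂ, eval (fun i => aeval τ (θ i)) S ≠ 0 ∧ ∀ z ∈ Z, eval z (S * Γ) = 0

/-- Elimination of the singular point. -/
def StPUSH : Prop := ∀ (W : Type) [Fintype W] (Z : Set (W ⊕ Fin 2 → ℂ)) (Δ : MvPolynomial W ℂ),
  (∀ i : Fin 2, ∃ m : Polynomial (MvPolynomial W ℂ), m.Monic ∧ ∀ z ∈ Z,
    m.eval₂ (eval (z ∘ Sum.inl)) (eval (z ∘ Sum.inl) Δ * z (Sum.inr i)) = 0) →
  ∀ (ω : W → ℂ) (Γ : MvPolynomial W ℂ), eval ω Δ ≠ 0 →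
  (∀ p : Pt, (∀ Φ : MvPolynomial (W ⊕ Fin 2) ℂ, (∀ z ∈ Z, eval z Φ = 0) →
      eval (Sum.elim ω p) Φ = 0) →
    ∃ S : MvPolynomial (W ⊕ Fin 2) ℂ, eval (Sum.elim ω p) S ≠ 0 ∧
      ∀ z ∈ Z, eval z (S * rename Sum.inl Γ) = 0) →
  ∃ S : MvPolynomial W ℂ, eval ω S ≠ 0 ∧ ∀ z ∈ Z, eval (z ∘ Sum.inl) (S * Γ) = 0

/-- Sylvester determinant of the top degree parts. -/
def StSYL : Prop := ∀ d : ℕ, 1 ≤ d → ∃ Δ : MvPolynomial (Fin 2 × Mon d) ℂ,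
  (∀ m : Fin 2 →₀ ℕ, m.degree = 2 * d - 1 →
    ∃ A B : Pol (MvPolynomial (Fin 2 × Mon d) ℂ), A.IsHomogeneous (d - 1) ∧
      B.IsHomogeneous (d - 1) ∧ monomial m Δ =
        A * homogeneousComponent d (form (d := d) X).1 +
          B * homogeneousComponent d (form (d := d) X).2) ∧
  ∀ (k : Type) [Field k] [Algebra ℂ k] (ω : Fin 2 × Mon d → k),
    SylInj d (form ω) → aeval ω Δ ≠ 0

def StFIN : Prop := ∀ d : ℕ, 1 ≤ d → ∃ Δ : MvPolynomial (Fin 2 × Mon d) ℂ,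
  (∀ i : Fin 2, ∃ m : Polynomial (MvPolynomial (Fin 2 × Mon d) ℂ), m.Monic ∧
    ∀ (ω : Fin 2 × Mon d → ℂ) (p : Pt), eval p (form ω).1 = 0 → eval p (form ω).2 = 0 →
      m.eval₂ (eval ω) (eval ω Δ * p i) = 0) ∧
  (∀ ω : Fin 2 × Mon d → ℂ, eval ω Δ ≠ 0 → IsRelPrime (form ω).1 (form ω).2 ∧
    max (form ω).1.totalDegree (form ω).2.totalDegree = d) ∧
  ∀ (k : Type) [Field k] [Algebra ℂ k] (ω : Fin 2 × Mon d → k),
    SylInj d (form ω) → aeval ω Δ ≠ 0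

def StJIND : Prop := ∀ (κ : Type) [Fintype κ] [DecidableEq κ] (π : κ → MvPolynomial κ ℂ),
  Matrix.det (Matrix.of fun u u' => pderiv u (π u')) ≠ 0 → AlgebraicIndependent ℂ π

def StALG : Prop := ∀ (κ : Type) [Fintype κ] (π : κ → MvPolynomial κ ℂ),
  AlgebraicIndependent ℂ π →
  (∀ g : MvPolynomial κ ℂ, ∃ Γ : MvPolynomial (Option κ) ℂ,
    aeval (fun o : Option κ => o.elim g π) Γ = 0 ∧
    aeval (fun o : Option κ => o.elim g π) (pderiv none Γ) ≠ 0) ∧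
  ∀ g : MvPolynomial κ ℂ, g ≠ 0 → ∃ A : MvPolynomial κ ℂ, A ≠ 0 ∧ g ∣ aeval π A

def StDEP : Prop := ∀ (ι κ : Type) [Fintype ι] [Fintype κ] (θ : ι → MvPolynomial κ ℂ),
  Fintype.card κ < Fintype.card ι → ∃ A : MvPolynomial ι ℂ, A ≠ 0 ∧ aeval θ A = 0

/-- Generic smoothness of the image of a generically immersive polynomial map. -/
def StGS : Prop := ∀ (ι κ : Type) [Fintype ι] [Fintype κ] [DecidableEq κ]
  (θ : ι → MvPolynomial κ ℂ) (e : κ → ι),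
  Matrix.det (Matrix.of fun u u' => pderiv u (θ (e u'))) ≠ 0 →
  ∃ Ψ : MvPolynomial κ ℂ, Ψ ≠ 0 ∧ ∀ τ : κ → ℂ, eval τ Ψ ≠ 0 →
    Function.Injective (dmap θ τ) ∧ ∀ v : ι → ℂ,
      (∀ Γ : MvPolynomial ι ℂ, aeval θ Γ = 0 →
        ∑ i, eval (fun i => aeval τ (θ i)) (pderiv i Γ) * v i = 0) →
      v ∈ LinearMap.range (dmap θ τ)

/-! ### The chart -/

def StSURJ : Prop := ∀ (G : Type) [Fintype G] [DecidableEq G] (dd : G → ℕ) (g0 : G),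
  (∀ g, 1 ≤ dd g) → ∀ (k : Type) [Field k] (f : G → Pol k) (lam : G → k)
  (p : Fin 2 → k), Nrm dd f lam → lam g0 ≠ 0 →
  ∃ τ : Idx dd → k, yf g0 τ = f ∧ ylam g0 τ = lam ∧ yp g0 τ = p

/-- The differential of the parametrisation. -/
def StDPI : Prop := ∀ (G : Type) [Fintype G] [DecidableEq G] (dd : G → ℕ) (g0 : G) (d : ℕ),
  (∀ g, 1 ≤ dd g) → ∑ g, dd g = d + 1 →
  ∀ (k : Type) [CommRing k] [Algebra ℂ k] (τ v : Idx dd → k),
    form (dmap (piU d dd g0) τ v) =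
      ∑ g, tv (yF g0 τ) (ylam g0 τ) g ((Der.pt τ v).p1 (yF g0 X g)) +
        ∑ g, (Der.pt τ v).c1 (ylam g0 X g) • lg (yF g0 τ) g ∧
    form (dmap (piU d dd g0) τ v) ∈ InTL dd (yF g0 τ) (ylam g0 τ) ∧
    dmap (piU d dd g0) τ v ∈ TL d dd (yf g0 τ) (ylam g0 τ) (yp g0 τ)

/-- Generic sharpness of the formal condition. -/
def StGEN : Prop := ∀ (G : Type) [Fintype G] [DecidableEq G] (dd : G → ℕ) (g0 : G) (d : ℕ),
  (∀ g, 1 ≤ dd g) →
  ∀ (K : Type) [Field K] [Algebra ℂ K] (τ0 : Idx dd → K) (N : ℕ), yp g0 τ0 = 0 →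
    jac (om (yf g0 τ0) (ylam g0 τ0)) ≠ 0 →
    Module.finrank K (TN d N (yf g0 τ0) (ylam g0 τ0) 0) ≤ Fintype.card (Idx dd) →
    ∃ Ψ : MvPolynomial (Idx dd) ℂ, Ψ ≠ 0 ∧ ∀ τ : Idx dd → ℂ, eval τ Ψ ≠ 0 →
      jac (om (yf g0 τ) (ylam g0 τ)) ≠ 0 ∧
      Module.finrank ℂ (TN d (N + 1) (yf g0 τ) (ylam g0 τ) (yp g0 τ)) ≤ Fintype.card (Idx dd)

/-- Tangent vectors to the set of center pairs. -/
def StTAN : Prop := ∀ (G : Type) [Fintype G] [DecidableEq G] (dd : G → ℕ) (g0 : G) (d : ℕ),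
  (∀ g, 1 ≤ dd g) → ∑ g, dd g = d + 1 → ∀ (τ : Idx dd → ℂ) (N : ℕ),
  jac (om (yf g0 τ) (ylam g0 τ)) ≠ 0 →
  ∀ v ∈ tangent (cenPairs d) (Sum.elim (ypi d g0 τ) (yp g0 τ)),
    v ∘ Sum.inl ∈ TN d (N + 1) (yf g0 τ) (ylam g0 τ) (yp g0 τ) ∧ (v ∘ Sum.inl = 0 → v = 0)

/-- Generic points of the chart give center pairs. -/
def StKILL : Prop := ∀ (G : Type) [Fintype G] [DecidableEq G] (dd : G → ℕ) (g0 : G) (d : ℕ),
  (∀ g, 1 ≤ dd g) → ∑ g, dd g = d + 1 →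
  ∀ Δ : MvPolynomial (Fin 2 × Mon d) ℂ,
  (∀ ω : Fin 2 × Mon d → ℂ, eval ω Δ ≠ 0 → IsRelPrime (form ω).1 (form ω).2 ∧
    max (form ω).1.totalDegree (form ω).2.totalDegree = d) →
  aeval (piU d dd g0) Δ ≠ 0 →
  (∃ τ : Idx dd → ℂ, jac (om (yf g0 τ) (ylam g0 τ)) ≠ 0) →
  (∀ τ : Idx dd → ℂ, jac (om (yf g0 τ) (ylam g0 τ)) ≠ 0 →
    IsCenter (form (ypi d g0 τ)) (yp g0 τ) ∧ Nonempty (Chart (form (ypi d g0 τ)) (yp g0 τ))) ∧
  ∀ Φ, (∀ z ∈ cenPairs d, eval z Φ = 0) → aeval (piT d dd g0) Φ = 0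

def StTHIN : Prop := ∀ (G : Type) [Fintype G] [DecidableEq G] (dd : G → ℕ) (d : ℕ),
  ∀ (κ : Type) [Fintype κ]
  (sub : Idx dd ⊕ G → MvPolynomial κ ℂ) (pp : Fin 2 → MvPolynomial κ ℂ),
  Fintype.card κ < Fintype.card (Idx dd) + Fintype.card G →
  Thin d dd {x | ∃ a : κ → ℂ,
    (∀ (g : G) (m : Mon (dd g)), coeff m.1 (tr (fun i => eval a (pp i)) (x.1 g)) =
      eval a (sub (Sum.inl ⟨g, m⟩))) ∧ ∀ g, x.2 g = eval a (sub (Sum.inr g))}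

def StPIECE : Prop := ∀ (G : Type) [Fintype G] [DecidableEq G] (dd : G → ℕ) (d : ℕ),
  (∀ g, 1 ≤ dd g) → ∑ g, dd g = d + 1 →
  (∀ i, Thin d dd {x | x.2 i = 0}) ∧
  (∀ i j, i ≠ j → Thin d dd {x | x.2 i = x.2 j}) ∧
  (∀ i, Thin d dd {x | ∃ p : Pt, eval p (x.1 i) = 0 ∧ ∀ c, eval p (pderiv c (x.1 i)) = 0}) ∧
  (∀ i j, i ≠ j → Thin d dd {x | ∃ (p : Pt) (t : ℂ), eval p (x.1 i) = 0 ∧ eval p (x.1 j) = 0 ∧
    ∀ c, eval p (pderiv c (x.1 j)) = t * eval p (pderiv c (x.1 i))}) ∧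
  (∀ i j m, i ≠ j → j ≠ m → i ≠ m → Thin d dd {x | ∃ p : Pt, eval p (x.1 i) = 0 ∧
    eval p (x.1 j) = 0 ∧ eval p (x.1 m) = 0})

def StCASES : Prop := ∀ (G : Type) [Fintype G] [DecidableEq G] (dd : G → ℕ) (g0 : G) (d : ℕ),
  (∀ g, 1 ≤ dd g) → ∑ g, dd g = d + 1 → Thin d dd {x | Bad g0 x.1 x.2}

def StBAD : Prop := ∀ (G : Type) [Fintype G] [DecidableEq G] (dd : G → ℕ) (g0 : G) (d : ℕ),
  (∀ g, 1 ≤ dd g) → ∑ g, dd g = d + 1 → ∀ e : Idx dd → Fin 2 × Mon d,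
  ∃ A : MvPolynomial (Idx dd) ℂ, A ≠ 0 ∧ ∀ (f : G → Pol ℂ) (lam : G → ℂ),
    (∀ g, (f g).totalDegree ≤ dd g) → (∀ g, f g ≠ 0) → Bad g0 f lam →
    eval (fun u => coords d (om f lam) (e u)) A = 0

/-- A singular point off the curves comes from the chart. -/
def StLIFT : Prop := ∀ (G : Type) [Fintype G] [DecidableEq G] (dd : G → ℕ) (g0 : G),
  (∀ g, 1 ≤ dd g) → ∀ (f : G → Pol ℂ) (lam : G → ℂ) (p : Pt),
  (∀ g, (f g).totalDegree ≤ dd g) → lam g0 ≠ 0 → eval p (∏ g, f g) ≠ 0 →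
  eval p (om f lam).1 = 0 → eval p (om f lam).2 = 0 →
  ∃ τ : Idx dd → ℂ, yp g0 τ = p ∧ om (yF g0 τ) (ylam g0 τ) = om f lam

/-- The parametrisation is an immersion at a line arrangement. -/
def StJACL : Prop := ∀ (k G I : Type) [Field k] [Algebra ℂ k] [Fintype G] [DecidableEq G]
  [Fintype I] [DecidableEq I] (L : Lines k G I) (g0 : G) (τ : Idx L.dd → k), L.Gen →
  yf g0 τ = L.f → ylam g0 τ = L.lam → yp g0 τ = 0 →
  Function.Injective (dmap (piU (Fintype.card I - 1) L.dd g0) τ)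

def StDENS : Prop := ∀ (d s : ℕ) (dd : Fin s → ℕ) (Φ : MvPolynomial (Fin 2 × Mon d) ℂ),
  (∀ i, 1 ≤ dd i) → ∑ i, dd i = d + 1 → (∃ ω ∈ logLocus d dd, eval ω Φ ≠ 0) →
  logLocus d dd ⊆ closure (logLocus d dd ∩ {ω | eval ω Φ ≠ 0})

/-- The algebraic input: three nonvanishing statements on the chart. -/
def StKEY : Prop := ∀ (G : Type) [Fintype G] [DecidableEq G] (dd : G → ℕ) (g0 : G) (d : ℕ),
  2 ≤ d → (∃ g g' : G, g ≠ g') → (∀ g, 1 ≤ dd g) → ∑ g, dd g = d + 1 →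
  (∃ (N : ℕ) (Ψ : MvPolynomial (Idx dd) ℂ), Ψ ≠ 0 ∧ ∀ τ : Idx dd → ℂ, eval τ Ψ ≠ 0 →
    jac (om (yf g0 τ) (ylam g0 τ)) ≠ 0 ∧
    Module.finrank ℂ (TN d (N + 1) (yf g0 τ) (ylam g0 τ) (yp g0 τ)) ≤ Fintype.card (Idx dd)) ∧
  (∃ e : Idx dd → Fin 2 × Mon d,
    Matrix.det (Matrix.of fun u u' => pderiv u (piU d dd g0 (e u'))) ≠ 0) ∧
  ∃ (k : Type) (_ : Field k) (_ : Algebra ℂ k) (τ : Idx dd → k), SylInj d (form (ypi d g0 τ))

/-- The final statement. -/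
def StMAIN : Prop := ∀ (d s : ℕ) (dd : Fin s → ℕ), 2 ≤ d → 2 ≤ s → (∀ i, 1 ≤ dd i) →
  ∑ i, dd i = d + 1 →
  ∃ Φ : MvPolynomial (Fin 2 × Mon d) ℂ,
    logLocus d dd ⊆ closure (logLocus d dd ∩ {ω | eval ω Φ ≠ 0}) ∧
    (∃ ω ∈ logLocus d dd, eval ω Φ ≠ 0 ∧ ∃ p, IsCenter (form ω) p) ∧
    ∀ ω ∈ logLocus d dd, eval ω Φ ≠ 0 → ∀ p, IsCenter (form ω) p →
      Nonempty (Chart (form ω) p) ∧
      ∀ c : Chart (form ω) p, tangent (centerLocus d) ω = c.Tstar d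

end CenLoc
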